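import Mathlib

/-!
Approximate homomorphisms and diagonal arguments in ultrapowers.
-/

namespace Pool.Agent.MP_e9d43c_an.H41

open Filter Topology BoundedContinuousFunction TopologicalSpace

/-- The test expression. -/
def tm {R : Type} [NonUnitalRing R] [StarRing R] [Module ℂ R] (z : ℂ × ℂ × ℂ) (u v w x y : R) :
    R := z.1 • (u * v) + z.2.1 • w + z.2.2 • star x - y

abbrev Ix := ℕ × ℕ × ℕ × ℕ × ℕ × ℕ

/-- The test expression at an index. -/
noncomputable def tv {R : Type} [NonUnitalRing R] [StarRing R] [Module ℂ R] (t : ℕ → R) (r : Ix) :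
    R := tm (denseSeq (ℂ × ℂ × ℂ) r.1) (t r.2.1) (t r.2.2.1) (t r.2.2.2.1) (t r.2.2.2.2.1)
      (t r.2.2.2.2.2)

theorem map_tv {R S : Type} [NonUnitalRing R] [StarRing R] [Module ℂ R] [NonUnitalRing S]
    [StarRing S] [Module ℂ S] (f : R →⋆ₙₐ[ℂ] S) (t : ℕ → R) (r : Ix) :
    f (tv t r) = tv (fun i => f (t i)) r := by
  simp only [tv, tm, map_sub, map_add, map_smul, map_mul, map_star]

theorem diag {F : Filter ℕ} (hF : F ≤ cofinite) {P : ℕ → ℕ → Prop} (h : ∀ K, ∀ᶠ n in F, P K n) :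
    ∃ κ : ℕ → ℕ, ∀ K, ∀ᶠ n in F, K ≤ κ n ∧ P (κ n) n := by
  classical
  refine ⟨fun n => Nat.findGreatest (fun K => P K n) n, fun K => ?_⟩
  rw [Nat.cofinite_eq_atTop] at hF
  filter_upwards [h K, hF (eventually_ge_atTop K)] with n h1 h2
  exact ⟨Nat.le_findGreatest h2 h1, Nat.findGreatest_spec (P := fun K => P K n) h2 h1⟩

theorem le_of_inv {x y : ℝ} (j : ℕ) (h : ∀ k : ℕ, j ≤ k → x ≤ y + 1 / (k + 1)) : x ≤ y := by
  have := (tendsto_one_div_add_atTop_nhds_zero_nat (𝕜 := ℝ)).const_add y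
  rw [add_zero] at this
  exact ge_of_tendsto this ((eventually_ge_atTop j).mono h)

theorem inv_mono {k K : ℕ} (h : k ≤ K) : (1 : ℝ) / (K + 1) ≤ 1 / (k + 1) := by gcongr

variable {A : Type} [NonUnitalCStarAlgebra A] {M : Type} [CStarAlgebra M]

theorem ext_hom {a : ℕ → A} (ha : DenseRange a) (T : ℕ → M) (h : ∀ r, ‖tv T r‖ ≤ ‖tv a r‖) :
    ∃ ψ : A →⋆ₙₐ[ℂ] M, ∀ i, ψ (a i) = T i := by
  have h1 : ∀ z i j l m n, ‖tm z (T i) (T j) (T l) (T m) (T n)‖ ≤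
      ‖tm z (a i) (a j) (a l) (a m) (a n)‖ := fun z i j l m n => by
    refine (denseRange_denseSeq (ℂ × ℂ × ℂ)).induction_on z (isClosed_le ?_ ?_)
      fun p => h (p, i, j, l, m, n) <;> unfold tm <;> fun_prop
  have h2 : ∀ l n, ‖T l - T n‖ ≤ ‖a l - a n‖ := fun l n => by
    simpa [tm] using h1 (0, 1, 0) 0 0 l 0 n
  let f : Set.range a → M := fun x => T x.2.choose
  have hf : LipschitzWith 1 f := LipschitzWith.mk_one fun x y => by
    rw [dist_eq_norm, Subtype.dist_eq, dist_eq_norm, ← x.2.choose_spec, ← y.2.choose_spec]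
    exact h2 _ _
  have hd : Dense (Set.range a) := ha
  set Θ := hd.extend f
  have hc : Continuous Θ := (hd.lipschitzWith_extend hf).continuous
  have he : ∀ i, Θ (a i) = T i := fun i => by
    have m : a i ∈ Set.range a := ⟨i, rfl⟩
    refine (hd.extend_eq hf.continuous ⟨a i, m⟩).trans (sub_eq_zero.1 (norm_le_zero_iff.1 ?_))
    simpa only [m.choose_spec, sub_self, norm_zero] using h2 m.choose i
  have h3 : ∀ z (p : A × A × A × A × A),
      ‖tm z (Θ p.1) (Θ p.2.1) (Θ p.2.2.1) (Θ p.2.2.2.1) (Θ p.2.2.2.2)‖ ≤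
        ‖tm z p.1 p.2.1 p.2.2.1 p.2.2.2.1 p.2.2.2.2‖ := fun z p => by
    refine (ha.prodMap (ha.prodMap (ha.prodMap (ha.prodMap ha)))).induction_on p
      (isClosed_le ?_ ?_) fun ⟨i, j, l, m, n⟩ => ?_
    · unfold tm; fun_prop
    · unfold tm; fun_prop
    · simpa only [Prod.map, he] using h1 z i j l m n
  have h4 : ∀ (z : ℂ × ℂ × ℂ) u v w x, Θ (z.1 • (u * v) + z.2.1 • w + z.2.2 • star x) =
      z.1 • (Θ u * Θ v) + z.2.1 • Θ w + z.2.2 • star (Θ x) := fun z u v w x => by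
    have := h3 z (u, v, w, x, z.1 • (u * v) + z.2.1 • w + z.2.2 • star x)
    simp only [tm, sub_self, norm_zero, norm_le_zero_iff, sub_eq_zero] at this
    exact this.symm
  have hs : ∀ x, Θ (star x) = star (Θ x) := fun x => by simpa using h4 (0, 0, 1) 0 0 0 x
  exact ⟨{ toFun := Θ
           map_smul' := fun c x => by simpa using h4 (0, c, 0) 0 0 x 0
           map_zero' := by simpa using h4 (0, 0, 0) 0 0 0 0
           map_add' := fun x y => by simpa [hs] using h4 (0, 1, 1) 0 0 x (star y)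
           map_mul' := fun x y => by simpa using h4 (1, 0, 0) x y 0 0
           map_star' := hs }, he⟩

variable {O : Type} [CStarAlgebra O] [Nontrivial O]

/-- `q` presents `M` as the ultrapower of `O` along the nonprincipal ultrafilter `U`. -/
structure UP (U : Ultrafilter ℕ) (q : (ℕ →ᵇ O) →⋆ₐ[ℂ] M) : Prop where
  free : (U : Filter ℕ) ≤ cofinite
  surj : Function.Surjective q
  ker : ∀ x, q x = 0 ↔ Tendsto (fun n => ‖x n‖) (U : Filter ℕ) (𝓝 0)

variable {U : Ultrafilter ℕ} {q : (ℕ →ᵇ O) →⋆ₐ[ℂ] M}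

omit [Nontrivial O] in
theorem UP.trunc (h : UP U q) (z : ℕ →ᵇ O) {c : ℝ} (hc : 0 ≤ c) (hz : ∀ᶠ n in U, ‖z n‖ ≤ c) :
    ∃ z' : ℕ →ᵇ O, q z' = q z ∧ ∀ n, ‖z' n‖ ≤ c := by
  classical
  have hb : ∀ n, ‖(if ‖z n‖ ≤ c then z n else 0)‖ ≤ c := fun n => by
    split_ifs with h <;> simp [*]
  refine ⟨ofNormedAddCommGroupDiscrete _ c hb, ?_, hb⟩
  rw [← sub_eq_zero, ← map_sub, h.ker]
  refine tendsto_const_nhds.congr' (hz.mono fun n hn => ?_)
  change 0 = ‖(if ‖z n‖ ≤ c then z n else 0) - z n‖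
  rw [if_pos hn, sub_self, norm_zero]

theorem UP.nt (h : UP U q) (z : ℕ →ᵇ O) :
    Tendsto (fun n => ‖z n‖) (U : Filter ℕ) (𝓝 ‖q z‖) := by
  refine tendsto_order.2 ⟨fun c hc => ?_, fun c hc => ?_⟩
  · by_contra hn
    rw [← Ultrafilter.eventually_not] at hn
    have hn' : ∀ᶠ n in U, ‖z n‖ ≤ c := hn.mono fun n => not_lt.1
    obtain ⟨n, hn⟩ := hn'.exists
    have h0 := (norm_nonneg _).trans hn
    obtain ⟨z', e, hz⟩ := h.trunc z h0 hn'
    rw [← e] at hc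
    exact hc.not_ge ((NonUnitalStarAlgHom.norm_apply_le q z').trans ((norm_le h0).2 hz))
  · let _ := CStarAlgebra.spectralOrder M
    have _ := CStarAlgebra.spectralOrderedRing M
    let _ := CStarAlgebra.spectralOrder O
    have _ := CStarAlgebra.spectralOrderedRing O
    have h1 : 0 ≤ algebraMap ℝ M (‖q z‖ ^ 2) - star (q z) * q z :=
      sub_nonneg.2 CStarAlgebra.star_mul_le_algebraMap_norm_sq
    obtain ⟨β, hβ⟩ := h.surj (CFC.sqrt (algebraMap ℝ M (‖q z‖ ^ 2) - star (q z) * q z))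
    have h2 := (h.ker (star z * z + star β * β - ((‖q z‖ ^ 2 : ℝ) : ℂ) • 1)).1 (by
      rw [map_sub, map_add, map_mul, map_mul, map_star, map_star, hβ, map_smul, map_one,
        (IsSelfAdjoint.of_nonneg (CFC.sqrt_nonneg
          (algebraMap ℝ M (‖q z‖ ^ 2) - star (q z) * q z))).star_eq, CFC.sqrt_mul_sqrt_self _ h1,
        Algebra.algebraMap_eq_smul_one, Complex.coe_smul]
      abel)
    have h3 : 0 < c ^ 2 - ‖q z‖ ^ 2 := by nlinarith [norm_nonneg (q z)]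
    filter_upwards [h2.eventually (gt_mem_nhds h3)] with n hn
    change ‖star (z n) * z n + star (β n) * β n - ((‖q z‖ ^ 2 : ℝ) : ℂ) • 1‖ < _ at hn
    have h4 := CStarAlgebra.norm_le_norm_of_nonneg_of_le (star_mul_self_nonneg (z n))
      (le_add_of_nonneg_right (star_mul_self_nonneg (β n)))
    have h5 := norm_le_norm_add_norm_sub' (star (z n) * z n + star (β n) * β n)
      (((‖q z‖ ^ 2 : ℝ) : ℂ) • 1)
    rw [norm_smul, norm_one, mul_one, Complex.norm_real, Real.norm_of_nonneg (by positivity)] at h5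
    rw [CStarRing.norm_star_mul_self] at h4
    refine lt_of_pow_lt_pow_left₀ 2 ((norm_nonneg _).trans hc.le) ?_
    nlinarith

theorem UP.le (h : UP U q) {z : ℕ →ᵇ O} {c : ℝ} (j : ℕ)
    (hz : ∀ k : ℕ, j ≤ k → ∀ᶠ n in U, ‖z n‖ ≤ c + 1 / (k + 1)) : ‖q z‖ ≤ c :=
  le_of_inv j fun k hk => le_of_tendsto (h.nt z) (hz k hk)

theorem UP.ev (h : UP U q) {z : ℕ →ᵇ O} {c : ℝ} (hz : ‖q z‖ ≤ c) (k : ℕ) :
    ∀ᶠ n in U, ‖z n‖ ≤ c + 1 / (k + 1) :=
  (h.nt z).eventually (ge_mem_nhds (hz.trans_lt (lt_add_of_pos_right _ (by positivity))))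

/-- An enumeration of the indices. -/
noncomputable def nu : ℕ → Ix := (exists_surjective_nat Ix).choose

/-- Approximate homomorphisms, described by their values on the sequence `a`. -/
def Ap (un : Prop) (a : ℕ → A) (k : ℕ) (t : ℕ → O) : Prop :=
  (∀ r < k, ‖tv t (nu r)‖ ≤ ‖tv a (nu r)‖ + 1 / (k + 1)) ∧ (un → ‖t 0 - 1‖ ≤ 0 + 1 / (k + 1))

/-- Approximate compression. -/
def Dom (k : ℕ) (x t : ℕ → O) : Prop :=
  ∃ w : O, ‖w‖ ≤ 1 + 1 / (k + 1) ∧ ∀ i < k, ‖star w * x i * w - t i‖ ≤ 0 + 1 / (k + 1)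

variable {un : Prop} {a : ℕ → A}

omit [Nontrivial O] in
theorem Ap.mono {k K : ℕ} {t : ℕ → O} (h : Ap un a K t) (hk : k ≤ K) : Ap un a k t :=
  ⟨fun r hr => (h.1 r (hr.trans_le hk)).trans (by have := inv_mono hk; linarith),
    fun hu => (h.2 hu).trans (by have := inv_mono hk; linarith)⟩

theorem UP.lift (h : UP U q) (ψ : A →⋆ₙₐ[ℂ] M) (hu : un → ψ (a 0) = 1) :
    ∃ y : ℕ → ℕ →ᵇ O, (∀ i, q (y i) = ψ (a i)) ∧ (∀ i n, ‖y i n‖ ≤ ‖a i‖ + 1) ∧
      ∀ k, ∀ᶠ n in U, Ap un a k fun i => y i n := by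
  have : ∀ i, ∃ y : ℕ →ᵇ O, q y = ψ (a i) ∧ ∀ n, ‖y n‖ ≤ ‖a i‖ + 1 := fun i => by
    obtain ⟨z, hz⟩ := h.surj (ψ (a i))
    rw [← hz]
    refine h.trunc z (by positivity) ?_
    simpa using h.ev (hz ▸ NonUnitalStarAlgHom.norm_apply_le ψ (a i)) 0
  choose y h1 h2 using this
  refine ⟨y, h1, h2, fun k => Eventually.and ?_ ?_⟩
  · refine (Set.finite_lt_nat k).eventually_all.2 fun r _ => ?_
    refine h.ev (z := tv y (nu r)) ?_ k
    have := map_tv (q : (ℕ →ᵇ O) →⋆ₙₐ[ℂ] M) y (nu r)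
    simp only [NonUnitalStarAlgHom.coe_coe, h1, ← map_tv] at this
    rw [this]
    exact NonUnitalStarAlgHom.norm_apply_le ψ _
  · by_cases hun : un
    · refine (h.ev (z := y 0 - 1) ?_ k).mono fun n hn _ => hn
      rw [map_sub, h1, hu hun, map_one, sub_self, norm_zero]
    · exact Eventually.of_forall fun n h => absurd h hun

theorem UP.glue (h : UP U q) (ha : DenseRange a) (y : ℕ → ℕ →ᵇ O)
    (hy : ∀ k, ∀ᶠ n in U, Ap un a k fun i => y i n) :
    ∃ ψ : A →⋆ₙₐ[ℂ] M, (∀ i, ψ (a i) = q (y i)) ∧ (un → ψ (a 0) = 1) := by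
  obtain ⟨ψ, hψ⟩ := ext_hom ha (fun i => q (y i)) fun r => by
    obtain ⟨j, rfl⟩ := (exists_surjective_nat Ix).choose_spec r
    have := map_tv (q : (ℕ →ᵇ O) →⋆ₙₐ[ℂ] M) y (nu j)
    simp only [NonUnitalStarAlgHom.coe_coe] at this
    exact this ▸ h.le (j + 1) fun k hk => (hy k).mono fun n hn => hn.1 j hk
  refine ⟨ψ, hψ, fun hu => ?_⟩
  rw [hψ, ← sub_eq_zero, ← map_one q, ← map_sub, ← norm_le_zero_iff]
  exact h.le 0 fun k _ => (hy k).mono fun n hn => hn.2 hu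

theorem UP.dom_lift (h : UP U q) (x y : ℕ → ℕ →ᵇ O) {w : M} (hw : ‖w‖ ≤ 1)
    (e : ∀ i, star w * q (x i) * w = q (y i)) (k : ℕ) :
    ∀ᶠ n in U, Dom k (fun i => x i n) fun i => y i n := by
  obtain ⟨z, rfl⟩ := h.surj w
  have : ∀ᶠ n in U, ∀ i < k, ‖(star z * x i * z - y i) n‖ ≤ 0 + 1 / (k + 1) :=
    (Set.finite_lt_nat k).eventually_all.2 fun i _ => h.ev (by
      rw [map_sub, map_mul, map_mul, map_star, e, sub_self, norm_zero]) k
  filter_upwards [h.ev hw k, this] with n h1 h2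
  exact ⟨z n, h1, h2⟩

theorem UP.dom_glue (h : UP U q) (x y : ℕ → ℕ →ᵇ O)
    (hd : ∀ k, ∀ᶠ n in U, Dom k (fun i => x i n) fun i => y i n) :
    ∃ w : M, ‖w‖ ≤ 1 ∧ ∀ i, star w * q (x i) * w = q (y i) := by
  obtain ⟨κ, hκ⟩ := diag h.free hd
  have : ∀ n, ∃ w : O, ‖w‖ ≤ 2 ∧ (Dom (κ n) (fun i => x i n) (fun i => y i n) →
      ‖w‖ ≤ 1 + 1 / (κ n + 1) ∧
        ∀ i < κ n, ‖star w * x i n * w - y i n‖ ≤ 0 + 1 / (κ n + 1)) := fun n => by
    by_cases hn : Dom (κ n) (fun i => x i n) (fun i => y i n)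
    · obtain ⟨w, hw⟩ := hn
      refine ⟨w, hw.1.trans ?_, fun _ => hw⟩
      have := inv_mono (Nat.zero_le (κ n))
      norm_num at this ⊢
      linarith
    · exact ⟨0, by simp, fun h => absurd h hn⟩
  choose w h1 h2 using this
  let z := ofNormedAddCommGroupDiscrete w 2 h1
  refine ⟨q z, h.le 0 fun k _ => (hκ k).mono fun n hn => (h2 n hn.2).1.trans ?_, fun i => ?_⟩
  · have := inv_mono hn.1
    linarith
  · rw [← sub_eq_zero, ← map_star, ← map_mul, ← map_mul, ← map_sub, ← norm_le_zero_iff]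
    refine h.le (i + 1) fun k hk => (hκ k).mono fun n hn => ?_
    refine ((h2 n hn.2).2 i (hk.trans hn.1)).trans ?_
    have := inv_mono hn.1
    linarith

end Pool.Agent.MP_e9d43c_an.H41
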