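import Pool.Agent.MP_e9d43c_an.H44.Seq

/-!
The obstruction to compressing a tuple onto the expander unitaries, in averaged form.
-/

namespace Pool.Agent.MP_e9d43c_an.H41

open Matrix Finset Filter Pool.Agent.MP_e9d43c_an.H44

variable {O : Type} [CStarAlgebra O]

theorem localize_avg (T : Fin 5 → Vec →ₗ[ℂ] Vec) (hT : ∀ i, Loc (T i))
    (hb : ∀ i h, nsq (T i h) ≤ (1 + 1 / 30000) * nsq h) :
    ∃ N : ℕ, ∀ (D : ℕ) [NeZero D], 2 * 2 ^ N ≤ D ^ 2 → ∀ g : Gd D → Vec,
      (Fintype.card (Gd D) : ℝ) ≤ 2 * ∑ j, nsq (g j) →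
      ¬ ∀ i, ∑ j, nsq (T i (g j) - ∑ l, yMat D i l j • g l) ≤
        Fintype.card (Gd D) * ((1 / 30000) ^ 2 / 40) := by
  classical
  choose b b0 _ b2 using hT
  obtain ⟨N, hN⟩ := exists_nat_gt (4 * (∑ i, b i) * 30000 ^ 2)
  refine ⟨N, fun D _ hD g hcard he => ?_⟩
  set ε : ℝ := (1 / 30000) ^ 2 with hε
  let C : Finset Om := univ.biUnion fun j => (g j).support.biUnion (anc N)
  set Γ : ℝ := ∑ j, nsq (g j) with hΓ
  have hΓ0 : 0 < Γ := by
    have : (0 : ℝ) < Fintype.card (Gd D) := Nat.cast_pos.2 Fintype.card_pos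
    linarith
  have m1 : ∑ c ∈ C, ε * ∑ j, nsq (cut (ball N c) (g j)) = ε * (N * Γ) := by
    rw [← mul_sum, sum_comm, hΓ, mul_sum univ _ (N : ℝ)]
    congr 1
    refine sum_congr rfl fun j _ => sum_cut_eq N C (g j) fun ω hω => ?_
    exact (subset_biUnion_of_mem (anc N) hω).trans
      (subset_biUnion_of_mem (fun j => (g j).support.biUnion (anc N)) (mem_univ j))
  have m2 : ∀ i j, ∑ c ∈ C, nsq (T i (cut (ball N c) (g j)) -
      ∑ l, yMat D i l j • cut (ball N c) (g l)) ≤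
      2 * (b i * nsq (g j)) + 2 * (N * nsq (T i (g j) - ∑ l, yMat D i l j • g l)) :=
    fun i j => by
    have : ∀ c, nsq (T i (cut (ball N c) (g j)) -
        ∑ l, yMat D i l j • cut (ball N c) (g l)) ≤
        2 * nsq (T i (cut (ball N c) (g j)) - cut (ball N c) (T i (g j))) +
        2 * nsq (cut (ball N c) (T i (g j) - ∑ l, yMat D i l j • g l)) := fun c => by
      refine le_trans (le_of_eq ?_) (nsq_add_le _ _)
      simp only [map_sub, map_sum, map_smul, sub_add_sub_cancel]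
    refine (sum_le_sum fun c _ => this c).trans ?_
    rw [sum_add_distrib, ← mul_sum, ← mul_sum]
    have h1 := b2 i N C (g j)
    have h2 := sum_cut_le N C (T i (g j) - ∑ l, yMat D i l j • g l)
    linarith
  have m3 : ∑ c ∈ C, ∑ i, ∑ j, nsq (T i (cut (ball N c) (g j)) -
      ∑ l, yMat D i l j • cut (ball N c) (g l)) <
      ∑ c ∈ C, ε * ∑ j, nsq (cut (ball N c) (g j)) := by
    rw [m1, sum_comm]
    have : ∀ i, ∑ c ∈ C, ∑ j, nsq (T i (cut (ball N c) (g j)) -
        ∑ l, yMat D i l j • cut (ball N c) (g l)) ≤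
        2 * (b i * Γ) + Fintype.card (Gd D) * (2 * (N * (ε / 40))) := fun i => by
      rw [sum_comm]
      refine (sum_le_sum fun j _ => m2 i j).trans ?_
      rw [sum_add_distrib, ← mul_sum, ← mul_sum, ← mul_sum, ← mul_sum]
      have := mul_le_mul_of_nonneg_left (he i) (Nat.cast_nonneg (α := ℝ) N)
      linarith
    refine (sum_le_sum fun i _ => this i).trans_lt ?_
    rw [sum_add_distrib, ← mul_sum, ← sum_mul, sum_const, card_univ, Fintype.card_fin, nsmul_eq_mul]
    have h1 : (Fintype.card (Gd D) : ℝ) * (2 * (N * (ε / 40))) ≤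
        2 * Γ * (2 * (N * (ε / 40))) := by gcongr
    have h2 : 4 * (∑ i, b i) < ε * N := by rw [hε]; linarith
    have h3 := mul_lt_mul_of_pos_right h2 hΓ0
    push_cast
    nlinarith
  obtain ⟨c, -, hc⟩ := exists_lt_of_sum_lt m3
  refine absurd hc (not_lt.2 (matrix_step T hb (ball N c) ?_ (fun j => cut (ball N c) (g j))
    fun j ω hω => ?_))
  · have h3 := card_ball N c
    omega
  · by_contra h
    exact Finsupp.mem_support_iff.1 hω (if_neg h)

theorem main_poly_avg [Nontrivial O] {s : ℕ → O} (hs : Iso s) (x : Fin 5 → O) (hx : ∀ i, x i ∈ Poly s)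
    (hn : ∀ i, ‖x i‖ ≤ 1 + 1 / 10 ^ 12) : ∃ D : ℕ, ∀ w ∈ Poly s, ‖w‖ ≤ 1 + 1 / 10 ^ 12 →
      ¬ ∀ i, ∑ j, ‖(star w * x i * w - YY s D i) * tG s (D + 1) j‖ ≤
        Fintype.card (Gd (D + 1)) * (1 / 10 ^ 12) := by
  choose T hT hL using fun i => exists_rep hs (hx i)
  obtain ⟨N, hN⟩ := localize_avg T hL fun i h => (hT i).bound hs h |>.trans (by
    have h1 : ‖x i‖ ^ 2 ≤ (1 + 1 / 10 ^ 12) ^ 2 := by gcongr; exact hn i
    exact mul_le_mul_of_nonneg_right (h1.trans (by norm_num)) (nsq_nonneg h))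
  obtain ⟨D, hD⟩ : ∃ D, 2 * 2 ^ N ≤ (D + 1) ^ 2 :=
    ⟨2 ^ N, by nlinarith [Nat.zero_le ((2 ^ N) ^ 2)]⟩
  refine ⟨D, fun w hw hwn he => ?_⟩
  choose W hW _ using fun j : Gd (D + 1) => exists_rep hs
    (Subalgebra.mul_mem _ hw (tt_mem s (Fintype.equivFin (Gd (D + 1)) j)))
  let δ : Vec := Finsupp.single 0 1
  have hδ : nsq δ = 1 := by simp [nsq, δ]
  have hWall : ∀ᶠ M in atTop, ∀ j, w * tG s (D + 1) j * J s M δ = J s M (W j δ) :=
    eventually_all.2 fun j => hW j δ
  have fnorm : ∀ {p : O}, star p * p = 1 → ∀ j, ‖tG s (D + 1) j * p‖ = 1 := fun {p} hp j => by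
    have : star (tG s (D + 1) j * p) * (tG s (D + 1) j * p) = ((1 : ℝ) : ℂ) • (1 : O) := by
      rw [star_mul, mul_assoc, ← mul_assoc (star (tG _ _ _)), tG_orth hs, if_pos rfl, one_mul, hp]
      simp
    have := norm_sq_of_gram zero_le_one this
    nlinarith [norm_nonneg (tG s (D + 1) j * p)]
  have Yiso : ∀ {p : O}, star p * p = 1 → ∀ i j,
      star (YY s D i * (tG s (D + 1) j * p)) * (YY s D i * (tG s (D + 1) j * p)) = 1 :=
    fun {p} hp i j => by
    have h1 : star (YY s D i) * YY s D i * tG s (D + 1) j = tG s (D + 1) j := by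
      have hu : (yMat (D + 1) i)ᴴ * yMat (D + 1) i = 1 := mul_eq_one_comm.1 (yMat_unitary i)
      rw [YY, star_emb, emb_mul (tG_orth hs _), hu, emb_mul_t (tG_orth hs _)]
      simp [one_apply]
    calc _ = star p * (star (tG s (D + 1) j) * (star (YY s D i) * YY s D i * tG s (D + 1) j)) * p := by
          simp only [star_mul, mul_assoc]
      _ = 1 := by rw [h1, tG_orth hs, if_pos rfl, mul_one, hp]
  have Ynorm : ∀ {p : O}, star p * p = 1 → ∀ i j, ‖YY s D i * (tG s (D + 1) j * p)‖ = 1 :=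
    fun {p} hp i j => by
    have := norm_sq_of_gram (a := YY s D i * (tG s (D + 1) j * p)) zero_le_one
      (by rw [Yiso hp]; simp)
    nlinarith [norm_nonneg (YY s D i * (tG s (D + 1) j * p))]
  have one : ∀ {p : O}, star p * p = 1 → ∀ a : O, ‖a * p‖ ≤ ‖a‖ := fun {p} hp a => by
    have := norm_sq_of_gram (a := p) zero_le_one (by rw [hp]; simp)
    exact (norm_mul_le _ _).trans (mul_le_of_le_one_right (norm_nonneg _)
      (by nlinarith [norm_nonneg p]))
  suffices h : (∀ j, 19 / 10 - 4 * ‖(star w * x 0 * w - YY s D 0) * tG s (D + 1) j‖ ≤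
      2 * nsq (W j δ)) ∧ ∀ i j, nsq (T i (W j δ) - ∑ l, yMat (D + 1) i l j • W l δ) ≤
        7 / 10 ^ 12 + 2 * ‖(star w * x i * w - YY s D i) * tG s (D + 1) j‖ by
    have hc : (0 : ℝ) ≤ Fintype.card (Gd (D + 1)) := Nat.cast_nonneg _
    refine hN (D + 1) hD (fun j => W j δ) ?_ fun i => ?_
    · have := sum_le_sum fun j (_ : j ∈ univ) => h.1 j
      rw [sum_sub_distrib, sum_const, card_univ, nsmul_eq_mul, ← mul_sum, ← mul_sum] at this
      linarith [he 0]
    · have := sum_le_sum fun j (_ : j ∈ univ) => h.2 i j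
      rw [sum_add_distrib, sum_const, card_univ, nsmul_eq_mul, ← mul_sum] at this
      linarith [he i]
  refine ⟨fun j => ?_, fun i j => ?_⟩
  · obtain ⟨M, h1, h2, h3⟩ := (hWall.and ((gram hs δ).and (gram hs (W j δ)))).exists
    rw [hδ, Complex.ofReal_one, one_smul] at h2
    rw [← norm_sq_of_gram (nsq_nonneg _) h3, ← h1, mul_assoc w]
    have f1 := fnorm h2 j
    have f2 := Ynorm h2 0 j
    have a2 := one h2 ((star w * x 0 * w - YY s D 0) * tG s (D + 1) j)
    rw [mul_assoc] at a2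
    generalize tG s (D + 1) j * J s M δ = f at *
    have a1 : ‖YY s D 0 * f‖ ≤ ‖star w * x 0 * (w * f)‖ + ‖(star w * x 0 * w - YY s D 0) * f‖ := by
      refine le_trans (le_of_eq ?_) (norm_sub_le _ _)
      congr 1; noncomm_ring
    have a3 : ‖star w * x 0 * (w * f)‖ ≤ (1 + 1 / 10 ^ 12) * (1 + 1 / 10 ^ 12) * ‖w * f‖ := by
      refine (norm_mul_le _ _).trans (mul_le_mul_of_nonneg_right ((norm_mul_le _ _).trans ?_)
        (norm_nonneg _))
      rw [norm_star]
      gcongr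
      exact hn 0
    have a4 : ‖w * f‖ ≤ 2 := (norm_mul_le _ _).trans (by rw [f1]; linarith)
    nlinarith [sq_nonneg (‖w * f‖ - 1)]
  · obtain ⟨M, h1, h2, h3, h4, h5, h6⟩ := (hWall.and ((gram hs δ).and ((hT i (W j δ)).and
      ((gram hs (T i (W j δ))).and ((gram hs (∑ l, yMat (D + 1) i l j • W l δ)).and
      (gram hs (T i (W j δ) - ∑ l, yMat (D + 1) i l j • W l δ))))))).exists
    rw [hδ, Complex.ofReal_one, one_smul] at h2
    have eb : J s M (∑ l, yMat (D + 1) i l j • W l δ) =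
        w * (YY s D i * (tG s (D + 1) j * J s M δ)) := by
      rw [← mul_assoc (YY s D i), YY, emb_mul_t (tG_orth hs _), map_sum, sum_mul, mul_sum]
      refine sum_congr rfl fun l _ => ?_
      rw [map_smul, ← h1, smul_mul_assoc, mul_smul_comm, mul_assoc]
    have ea : J s M (T i (W j δ)) = x i * (w * (tG s (D + 1) j * J s M δ)) := by
      rw [← h3, ← h1, mul_assoc]
    rw [map_sub] at h6
    have n4 := norm_sq_of_gram (nsq_nonneg _) h4
    have n5 := norm_sq_of_gram (nsq_nonneg _) h5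
    have f1 := fnorm h2 j
    have f2 := Ynorm h2 i j
    have f3 := Yiso h2 i j
    have a0 := one h2 ((star w * x i * w - YY s D i) * tG s (D + 1) j)
    rw [mul_assoc] at a0
    refine (gram_sub_le h4 h5 h6
      (η := ‖(star w * x i * w - YY s D i) * tG s (D + 1) j‖) ?_).trans ?_
    · rw [ea, eb]
      generalize tG s (D + 1) j * J s M δ = f at *
      have : star (w * (YY s D i * f)) * (x i * (w * f)) - 1 =
          star (YY s D i * f) * ((star w * x i * w - YY s D i) * f) := by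
        rw [← f3, star_mul w]; noncomm_ring
      rw [this]
      refine (norm_mul_le _ _).trans ?_
      rw [norm_star, f2, one_mul]
      exact a0
    · rw [← n4, ← n5, ea, eb]
      generalize tG s (D + 1) j * J s M δ = f at *
      have a1 : ‖x i * (w * f)‖ ≤ (1 + 1 / 10 ^ 12) * (1 + 1 / 10 ^ 12) := by
        refine (norm_mul_le _ _).trans (mul_le_mul (hn i) ((norm_mul_le _ _).trans ?_)
          (norm_nonneg _) (by norm_num))
        rw [f1, mul_one]; exact hwn
      have a2 : ‖w * (YY s D i * f)‖ ≤ 1 + 1 / 10 ^ 12 :=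
        (norm_mul_le _ _).trans (by rw [f2, mul_one]; exact hwn)
      have a3 := pow_le_pow_left₀ (norm_nonneg _) a1 2
      have a4 := pow_le_pow_left₀ (norm_nonneg _) a2 2
      norm_num at a3 a4 ⊢
      linarith

theorem main_dense_avg [Nontrivial O] {s : ℕ → O} (hs : Iso s) (hd : Dense (Poly s : Set O))
    (x : Fin 5 → O) (hn : ∀ i, ‖x i‖ ≤ 1 + 1 / 10 ^ 13) : ∃ D : ℕ, ∀ w : O,
      ‖w‖ ≤ 1 + 1 / 10 ^ 13 → ¬ ∀ i, ∑ j, ‖(star w * x i * w - YY s D i) * tG s (D + 1) j‖ ≤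
        Fintype.card (Gd (D + 1)) * (3 / 10 ^ 13) := by
  have happ : ∀ a : O, ∃ b ∈ Poly s, ‖b - a‖ ≤ 1 / 10 ^ 13 := fun a => by
    obtain ⟨b, hb, h⟩ := hd.exists_dist_lt a (ε := 1 / 10 ^ 13) (by norm_num)
    exact ⟨b, hb, by rw [← dist_eq_norm, dist_comm]; exact h.le⟩
  have hle : ∀ a b : O, ‖a‖ ≤ 1 + 1 / 10 ^ 13 → ‖b - a‖ ≤ 1 / 10 ^ 13 →
      ‖b‖ ≤ 1 + 2 / 10 ^ 13 := fun a b h1 h2 => by
    have := norm_le_norm_add_norm_sub' b a
    linarith
  choose x' hx' hx'' using fun i => happ (x i)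
  obtain ⟨D, hD⟩ := main_poly_avg hs x' hx' fun i => (hle _ _ (hn i) (hx'' i)).trans (by norm_num)
  refine ⟨D, fun w hw he => ?_⟩
  obtain ⟨w', hw', hw''⟩ := happ w
  have hw2 := hle _ _ hw hw''
  refine hD w' hw' (hw2.trans (by norm_num)) fun i => ?_
  have hx2 := hle _ _ (hn i) (hx'' i)
  have e : star w' * x' i * w' - YY s D i = (star w * x i * w - YY s D i) +
      (star (w' - w) * x' i * w' + star w * (x' i - x i) * w' + star w * x i * (w' - w)) := by
    rw [star_sub]; noncomm_ring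
  have b3 : ∀ a b c : O, ∀ p q r : ℝ, ‖a‖ ≤ p → ‖b‖ ≤ q → ‖c‖ ≤ r → ‖star a * b * c‖ ≤ p * q * r :=
    fun a b c p q r h1 h2 h3 => by
    refine (norm_mul₃_le ..).trans ?_
    rw [norm_star]
    have hp := (norm_nonneg a).trans h1
    have hq := (norm_nonneg b).trans h2
    gcongr
  have c1 := b3 _ _ _ _ _ _ hw'' hx2 hw2
  have c2 := b3 _ _ _ _ _ _ hw (hx'' i) hw2
  have c3 := b3 _ _ _ _ _ _ hw (hn i) hw''
  have c4 := norm_add₃_le (a := star (w' - w) * x' i * w') (b := star w * (x' i - x i) * w')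
    (c := star w * x i * (w' - w))
  generalize star (w' - w) * x' i * w' + star w * (x' i - x i) * w' +
    star w * x i * (w' - w) = z at e c4
  have c5 : ‖z‖ ≤ 4 / 10 ^ 13 := by
    refine c4.trans ((add_le_add (add_le_add c1 c2) c3).trans ?_)
    norm_num
  have c6 : ∀ j, ‖(star w' * x' i * w' - YY s D i) * tG s (D + 1) j‖ ≤
      ‖(star w * x i * w - YY s D i) * tG s (D + 1) j‖ + 4 / 10 ^ 13 := fun j => by
    have ht : ‖tG s (D + 1) j‖ ≤ 1 + 0 := norm_le_of_pi le_rfl (by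
      rw [mul_assoc, tG_orth hs, if_pos rfl, mul_one, sub_self, norm_zero])
    rw [e, add_mul]
    refine (norm_add_le _ _).trans (add_le_add_right ((norm_mul_le _ _).trans ?_) _)
    nlinarith [norm_nonneg z]
  refine (sum_le_sum fun j _ => c6 j).trans ?_
  rw [sum_add_distrib, sum_const, card_univ, nsmul_eq_mul]
  have hc : (0 : ℝ) ≤ Fintype.card (Gd (D + 1)) := Nat.cast_nonneg _
  linarith [he i]

end Pool.Agent.MP_e9d43c_an.H41
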