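import Pool.Agent.MP_e9d43c_an.H41.Free

/-!
Homomorphisms from the cone over the algebra generated by a unitary representation.
-/

namespace Pool.Agent.MP_e9d43c_an.H41

open Filter Topology

variable {O : Type} [CStarAlgebra O] {M : Type} [CStarAlgebra M]

/-- The generators of the cone. -/
noncomputable def gen (v : F5 →* O) (g : F5) : C(unitInterval, O) :=
  ⟨fun t => ((t : ℝ) : ℂ) • v g, by fun_prop⟩

/-- The unitized cone. -/
noncomputable def cone (v : F5 →* O) : StarSubalgebra ℂ C(unitInterval, O) :=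
  (StarAlgebra.adjoin ℂ (Set.range (gen v))).topologicalClosure

theorem gen_mem (v : F5 →* O) (g : F5) : gen v g ∈ cone v :=
  StarSubalgebra.le_topologicalClosure _ (StarAlgebra.subset_adjoin ℂ _ ⟨g, rfl⟩)

theorem localize_norm {h W : M} (h1 : IsSelfAdjoint h) (h2 : ‖(2 : ℂ) • h - 1‖ ≤ 1)
    (hc : Commute (star W * W) h) : ∃ t : unitInterval, ∀ δ : ℝ, 0 < δ →
      ∃ e : M, ‖e‖ ≤ 1 ∧ ‖(h - ((t : ℝ) : ℂ) • 1) * e‖ ≤ δ ∧ ‖W‖ ≤ ‖W * e‖ := by
  rcases subsingleton_or_nontrivial M with _ | _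
  · exact ⟨0, fun δ hδ => ⟨0, by simp, by simpa using hδ.le, by simp [Subsingleton.elim W 0]⟩⟩
  have hx := IsSelfAdjoint.star_mul_self W
  set z := star W * W + Complex.I • h
  have re : (realPart z : M) = star W * W := by
    simp [z, hx.coe_realPart, h1.imaginaryPart]
  have im : (imaginaryPart z : M) = h := by
    simp [z, hx.imaginaryPart, h1.coe_realPart]
  have hz : IsStarNormal z := isStarNormal_iff_commute_realPart_imaginaryPart.2 (re ▸ im ▸ hc)
  rw [← cfc_re_id z] at re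
  rw [← cfc_im_id z] at im
  obtain ⟨ζ, hζ, e⟩ := (IsGreatest.norm_cfc (fun x : ℂ => (x.re : ℂ)) z).1
  have h3 := norm_apply_le_norm_cfc (fun x : ℂ => (2 : ℂ) • (x.im : ℂ) - 1) z hζ
  rw [cfc_sub _ _ z, cfc_smul _ _ z, cfc_const_one ℂ z, im, smul_eq_mul, ← Complex.ofReal_ofNat,
    ← Complex.ofReal_mul, ← Complex.ofReal_one, ← Complex.ofReal_sub, Complex.norm_real,
    Complex.ofReal_ofNat] at h3
  have h4 := abs_le.1 (h3.trans h2)
  refine ⟨⟨ζ.im, by linarith, by linarith⟩, fun δ hδ => ?_⟩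
  let f : ℂ → ℂ := fun x => (max 0 (1 - |x.im - ζ.im| / δ) : ℝ)
  have cf : Continuous f := by fun_prop
  have nf : ∀ x, ‖f x‖ = max 0 (1 - |x.im - ζ.im| / δ) := fun x => by
    rw [Complex.norm_real, Real.norm_of_nonneg (le_max_left _ _)]
  have nf' : ∀ x, ‖f x‖ ≤ 1 := fun x => by
    rw [nf]
    exact max_le zero_le_one (sub_le_self _ (by positivity))
  refine ⟨cfc f z, norm_cfc_le zero_le_one fun x _ => nf' x, ?_, ?_⟩
  · rw [← im, ← Algebra.algebraMap_eq_smul_one, ← cfc_const _ z, ← cfc_sub _ _ z,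
      ← cfc_mul _ _ z (by fun_prop) cf.continuousOn]
    refine norm_cfc_le hδ.le fun x _ => ?_
    rw [norm_mul, ← Complex.ofReal_sub, Complex.norm_real, Real.norm_eq_abs]
    by_cases hx : |x.im - ζ.im| ≤ δ
    · exact (mul_le_of_le_one_right (abs_nonneg _) (nf' x)).trans hx
    · rw [nf, max_eq_left (sub_nonpos.2 ((one_le_div hδ).2 (not_le.1 hx).le)), mul_zero]
      exact hδ.le
  · have h5 := norm_apply_le_norm_cfc (fun x : ℂ => (x.re : ℂ) * f x) z hζ
      ((Complex.continuous_ofReal.comp Complex.continuous_re).mul cf).continuousOn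
    simp only [re] at e
    rw [cfc_mul _ _ z (by fun_prop) cf.continuousOn, re, norm_mul, e, nf,
      CStarRing.norm_star_mul_self, mul_assoc (star W)] at h5
    have h6 := h5.trans (norm_mul_le _ _)
    simp only [sub_self, abs_zero, zero_div, sub_zero, zero_le_one, max_eq_right, mul_one,
      norm_star] at h6
    rcases (norm_nonneg W).eq_or_lt with h0 | h0
    · exact h0.ge.trans (norm_nonneg _)
    · exact le_of_mul_le_mul_left h6 h0

theorem cone_hom [Nontrivial O] {v : F5 →* O} (hv : URep v) {h : M} {V : F5 →* M} (hV : URep V)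
    (h1 : IsSelfAdjoint h) (h2 : ‖(2 : ℂ) • h - 1‖ ≤ 1) (hc : ∀ g, Commute (V g) h)
    (hb : ∀ P m, ‖ev V P * (h * m)‖ ≤ ‖ev v P‖ * ‖h * m‖) :
    ∃ ψ : cone v →⋆ₐ[ℂ] M, ∀ g, ψ ⟨gen v g, gen_mem v g⟩ = V g * h := by
  let S := StarAlgebra.adjoin ℂ (Set.range fun g => (gen v g, V g * h))
  have cP : ∀ P, Commute (ev V P) h := fun P => by
    rw [MonoidAlgebra.lift_apply]
    exact Commute.sum_left _ _ _ fun g _ => (hc g).smul_left _
  have ck : ∀ (t : ℂ) (a : M), Commute a h → Commute a (h - t • 1) := fun t a ha =>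
    ha.sub_right ((Commute.one_right a).smul_right t)
  have ck' : ∀ t : ℂ, Commute (h - t • 1) h := fun t => (ck t h (Commute.refl h)).symm
  have good : ∀ (t : unitInterval), ∀ p ∈ S, ∃ P R, p.1 t = ev v P ∧
      p.2 = ev V P + R * (h - ((t : ℝ) : ℂ) • 1) ∧ Commute R h ∧
      (t = 0 → ∃ c : ℂ, ev v P = c • 1 ∧ ev V P = c • 1) := fun t p hp => by
    induction hp using StarAlgebra.adjoin_induction with
    | mem p hp =>
      obtain ⟨g, rfl⟩ := hp
      refine ⟨.single g (t : ℝ), V g, by simp [gen], by simp [mul_sub], hc g, fun e => ⟨0, ?_⟩⟩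
      simp [e]
    | algebraMap r =>
      exact ⟨algebraMap ℂ _ r, 0, by rw [AlgHom.commutes]; rfl, by
        rw [AlgHom.commutes, zero_mul, add_zero]; rfl, Commute.zero_left h, fun _ =>
        ⟨r, by simp only [Algebra.algebraMap_eq_smul_one, map_smul, map_one, and_self]⟩⟩
    | add p q _ _ hp hq =>
      obtain ⟨P, R, a1, a2, a3, a4⟩ := hp
      obtain ⟨Q, T, b1, b2, b3, b4⟩ := hq
      refine ⟨P + Q, R + T, by rw [map_add, ← a1, ← b1]; rfl, ?_, a3.add_left b3, fun e => ?_⟩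
      · rw [Prod.snd_add, a2, b2, map_add, add_mul]
        abel
      · obtain ⟨c, c1, c2⟩ := a4 e
        obtain ⟨d, d1, d2⟩ := b4 e
        exact ⟨c + d, by simp only [map_add, c1, c2, d1, d2, add_smul, and_self]⟩
    | mul p q _ _ hp hq =>
      obtain ⟨P, R, a1, a2, a3, a4⟩ := hp
      obtain ⟨Q, T, b1, b2, b3, b4⟩ := hq
      refine ⟨P * Q, ev V P * T + R * ev V Q + R * (h - ((t : ℝ) : ℂ) • 1) * T,
        by rw [map_mul, ← a1, ← b1]; rfl, ?_, (((cP P).mul_left b3).add_left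
          (a3.mul_left (cP Q))).add_left ((a3.mul_left (ck' _)).mul_left b3), fun e => ?_⟩
      · have := (ck (t : ℝ) _ (cP Q)).eq
        rw [Prod.snd_mul, a2, b2, map_mul]
        generalize h - ((t : ℝ) : ℂ) • 1 = k at this ⊢
        simp only [add_mul, mul_add, mul_assoc, this]
        abel
      · obtain ⟨c, c1, c2⟩ := a4 e
        obtain ⟨d, d1, d2⟩ := b4 e
        exact ⟨c * d, by simp only [map_mul, c1, c2, d1, d2, smul_mul_smul_comm, mul_one, and_self]⟩
    | star p _ hp =>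
      obtain ⟨P, R, a1, a2, a3, a4⟩ := hp
      have a5 : Commute (star R) h := by simpa only [h1.star_eq] using a3.star_star
      refine ⟨adj P, star R, by rw [ev_adj hv, ← a1]; rfl, ?_, a5, fun e => ?_⟩
      · rw [Prod.snd_star, a2, star_add, ev_adj hV, star_mul, (ck _ _ a5).eq]
        simp [h1.star_eq]
      · obtain ⟨c, c1, c2⟩ := a4 e
        exact ⟨star c, by simp only [ev_adj hv, ev_adj hV, c1, c2, star_smul, star_one, and_self]⟩
  have key : ∀ p ∈ S, ‖p.2‖ ≤ ‖p.1‖ := fun p hp => by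
    obtain ⟨t, ht⟩ := localize_norm (W := p.2) h1 h2 (by
      obtain ⟨P, R, -, a2, a3, -⟩ := good 0 _ (mul_mem (star_mem hp) hp)
      exact a2 ▸ (cP P).add_left (a3.mul_left (ck' _)) :
        Commute (star p * p).2 h)
    obtain ⟨P, R, a1, a2, a3, a4⟩ := good t p hp
    have a5 : ‖ev v P‖ ≤ ‖p.1‖ := a1 ▸ p.1.norm_coe_le_norm t
    obtain ⟨B, B0, hB⟩ : ∃ B, 0 ≤ B ∧ ∀ (δ : ℝ) (e : M), ‖e‖ ≤ 1 →
        ‖(h - ((t : ℝ) : ℂ) • 1) * e‖ ≤ δ → ‖ev V P * e‖ ≤ ‖p.1‖ + B * δ := by
      by_cases h0 : t = 0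
      · obtain ⟨c, c1, c2⟩ := a4 h0
        refine ⟨0, le_rfl, fun δ e he _ => ?_⟩
        rw [c1, norm_smul, norm_one, mul_one] at a5
        rw [c2, smul_mul_assoc, one_mul, norm_smul, zero_mul, add_zero]
        exact (mul_le_of_le_one_right (norm_nonneg _) he).trans a5
      · have t0 : (0 : ℝ) < t := lt_of_le_of_ne t.2.1 fun e => h0 (Subtype.ext e.symm)
        refine ⟨(‖p.1‖ + ‖ev V P‖) / t, by positivity, fun δ e he hd => ?_⟩
        have nt : ∀ a : M, ‖((t : ℝ) : ℂ) • a‖ = t * ‖a‖ := fun a => by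
          rw [norm_smul, Complex.norm_real, Real.norm_of_nonneg t0.le]
        rw [sub_mul, smul_mul_assoc, one_mul] at hd
        have b1 : ‖h * e‖ ≤ t + δ := by
          have := norm_le_norm_add_norm_sub' (h * e) (((t : ℝ) : ℂ) • e)
          rw [nt] at this
          nlinarith
        have b2 := norm_sub_le (ev V P * (h * e)) (ev V P * (h * e - ((t : ℝ) : ℂ) • e))
        rw [← mul_sub, sub_sub_cancel, mul_smul_comm, nt] at b2
        have b3 := (hb P e).trans (mul_le_mul a5 b1 (norm_nonneg _) (norm_nonneg _))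
        have b4 := (norm_mul_le (ev V P) _).trans (mul_le_mul_of_nonneg_left hd (norm_nonneg _))
        refine le_of_mul_le_mul_left ?_ t0
        rw [mul_add, ← mul_assoc, mul_div_cancel₀ _ t0.ne']
        linarith
    refine le_of_forall_pos_le_add fun ε hε => ?_
    obtain ⟨e, e1, e2, e3⟩ := ht (ε / (B + ‖R‖ + 1)) (by positivity)
    have b1 := hB _ e e1 e2
    have b2 := (norm_mul_le R _).trans (mul_le_mul_of_nonneg_left e2 (norm_nonneg _))
    have b3 : (B + ‖R‖ + 1) * (ε / (B + ‖R‖ + 1)) = ε := mul_div_cancel₀ _ (by positivity)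
    have b4 : 0 < ε / (B + ‖R‖ + 1) := by positivity
    refine e3.trans ?_
    rw [a2, add_mul, mul_assoc]
    exact (norm_add_le _ _).trans (by linarith)
  have hS : IsClosed (S.topologicalClosure : Set (C(unitInterval, O) × M)) :=
    StarSubalgebra.isClosed_topologicalClosure _
  have key' : ∀ p ∈ S.topologicalClosure, ‖p.2‖ ≤ ‖p.1‖ := fun p hp =>
    closure_minimal key (isClosed_le continuous_snd.norm continuous_fst.norm) hp
  let f := (StarAlgHom.fst ℂ C(unitInterval, O) M).comp S.topologicalClosure.subtype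
  have hf : Function.Injective f := fun p q hp => by
    have := key' _ (sub_mem p.2 q.2)
    rw [Prod.fst_sub, show p.1.1 = q.1.1 from hp, sub_self, norm_zero, norm_le_zero_iff,
      Prod.snd_sub, sub_eq_zero] at this
    exact Subtype.ext (Prod.ext hp this)
  have mem : ∀ g, (gen v g, V g * h) ∈ S.topologicalClosure := fun g =>
    StarSubalgebra.le_topologicalClosure _ (StarAlgebra.subset_adjoin ℂ _ ⟨g, rfl⟩)
  have hle : cone v ≤ f.range := StarSubalgebra.topologicalClosure_minimal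
    (StarAlgebra.adjoin_le (by rintro _ ⟨g, rfl⟩; exact ⟨⟨_, mem g⟩, rfl⟩))
    (NonUnitalStarAlgHom.isometry f hf).isClosedEmbedding.isClosed_range
  refine ⟨((StarAlgHom.snd ℂ C(unitInterval, O) M).comp S.topologicalClosure.subtype).comp
    (((StarAlgEquiv.ofInjective f hf).symm : f.range →⋆ₐ[ℂ] S.topologicalClosure).comp
      (StarSubalgebra.inclusion hle)), fun g => ?_⟩
  have : (StarAlgEquiv.ofInjective f hf).symm ⟨gen v g, hle (gen_mem v g)⟩ = ⟨_, mem g⟩ :=
    (StarAlgEquiv.ofInjective f hf).symm_apply_apply ⟨_, mem g⟩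
  exact congrArg (fun p : S.topologicalClosure => p.1.2) this

end Pool.Agent.MP_e9d43c_an.H41
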