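import Pool.Agent.MP_e9d43c_an.H44.Seq

/-!
Finite-dimensional part: small spectral subspaces and almost central cut-off operators.
-/

namespace Pool.Agent.MP_e9d43c_an.H41

open Finset Module Pool.Agent.MP_e9d43c_an.H44

section

variable {R : Type} [CStarAlgebra R]

theorem orth_sum {ι : Type} (t : Finset ι) (a : ι → R) {c : ℝ} (hc : 0 ≤ c)
    (h1 : ∀ i j, i ≠ j → star (a i) * a j = 0) (h2 : ∀ i j, i ≠ j → a i * star (a j) = 0)
    (h3 : ∀ i, ‖a i‖ ≤ c) : ‖∑ i ∈ t, a i‖ ≤ c := by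
  have e : star (∑ i ∈ t, a i) * ∑ i ∈ t, a i = ∑ i ∈ t, star (a i) * a i := by
    rw [star_sum, sum_mul_sum]
    exact sum_congr rfl fun i hi => sum_eq_single i (fun j _ hj => h1 i j hj.symm)
      fun h => absurd hi h
  have h4 := IsSelfAdjoint.nnnorm_sum_eq_sup (f := fun i => star (a i) * a i) t
    (fun i _ => IsSelfAdjoint.star_mul_self _) fun i j hij => by
      change star (a i) * a i * (star (a j) * a j) = 0
      rw [mul_assoc, ← mul_assoc (a i), h2 i j hij, zero_mul, mul_zero]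
  lift c to NNReal using hc
  have h5 : ‖∑ i ∈ t, a i‖₊ * ‖∑ i ∈ t, a i‖₊ ≤ c * c := by
    rw [← CStarRing.nnnorm_star_mul_self, e, h4]
    refine Finset.sup_le fun i _ => ?_
    rw [CStarRing.nnnorm_star_mul_self]
    exact mul_le_mul' (h3 i) (h3 i)
  exact abs_le_of_sq_le_sq' (by rw [sq, sq]; exact_mod_cast h5) c.2 |>.2

theorem half_comm {p : ℕ → R} (hp : ∀ j, IsStarProjection (p j))
    (hle : ∀ l j, l ≤ j → p j * p l = p l) {U : R} (hU : ‖U‖ ≤ 1)
    (hZ : ∀ j, p (j + 1) * (U * p j) = U * p j) (N : ℕ) :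
    ‖∑ j ∈ range N, (1 - p j) * U * p j‖ ≤ 1 := by
  have Z : ∀ l j, l < j → (1 - p j) * U * p l = 0 := fun l j h => by
    rw [mul_assoc, ← hZ, ← mul_assoc, sub_mul, one_mul, hle _ _ h, sub_self, zero_mul]
  have s : ∀ j, star ((1 - p j) * U * p j) = p j * star U * (1 - p j) := fun j => by
    simp [(hp j).isSelfAdjoint.star_eq, mul_assoc]
  have wl : ∀ f : ℕ → ℕ → R, (∀ i j, star (f i j) = f j i) → (∀ l j, l < j → f j l = 0) →
      ∀ i j, i ≠ j → f i j = 0 := fun f h1 h2 i j hij => by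
    rcases hij.lt_or_gt with h | h
    · rw [← h1, h2 i j h, star_zero]
    · exact h2 j i h
  refine orth_sum _ _ zero_le_one (wl _ (fun i j => by rw [star_mul, star_star]) fun l j h => ?_)
    (wl _ (fun i j => by rw [star_mul, star_star]) fun l j h => ?_) fun j => ?_
  · have : (1 - p j) * (1 - p l) = 1 - p j := by
      rw [mul_sub, mul_one, sub_mul, one_mul, hle _ _ h.le, sub_self, sub_zero]
    calc _ = p j * star U * ((1 - p j) * (1 - p l) * U * p l) := by
          rw [s]; simp only [mul_assoc]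
      _ = 0 := by rw [this, Z l j h, mul_zero]
  · calc _ = (1 - p j) * U * (p j * p l) * (star U * (1 - p l)) := by
          rw [s]; simp only [mul_assoc]
      _ = 0 := by rw [hle _ _ h.le, Z l j h, zero_mul]
  · refine norm_mul₃_le.trans ?_
    calc _ ≤ (1 : ℝ) * 1 * 1 := by
          gcongr
          exacts [(hp j).one_sub.norm_le, (hp j).norm_le]
      _ = 1 := by norm_num

end

variable {E : Type} [NormedAddCommGroup E] [InnerProductSpace ℂ E] [FiniteDimensional ℂ E]
  [CompleteSpace E]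

omit [CompleteSpace E] in
theorem finrank_sup_le {ι : Type} (t : Finset ι) (f : ι → Submodule ℂ E) :
    finrank ℂ ↥(t.sup f) ≤ ∑ i ∈ t, finrank ℂ (f i) := by
  classical
  induction t using Finset.induction_on with
  | empty => simp
  | insert i t hi ih =>
    rw [sup_insert, sum_insert hi]
    exact (Submodule.finrank_add_le_finrank_add_finrank _ _).trans (by omega)

omit [CompleteSpace E] in
theorem sum_proj {ι : Type} [Fintype ι] (b : OrthonormalBasis ι ℂ E) (K : Submodule ℂ E) :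
    ∑ a, ‖K.starProjection (b a)‖ ^ 2 = finrank ℂ K := by
  have h : LinearMap.IsProj K (K.starProjection : E →ₗ[ℂ] E) :=
    ⟨K.starProjection_apply_mem, fun x hx => Submodule.starProjection_eq_self_iff.2 hx⟩
  have h1 := congrArg Complex.re (h.trace.symm.trans (LinearMap.trace_eq_sum_inner _ b))
  rw [Complex.natCast_re, Complex.re_sum] at h1
  rw [h1]
  refine sum_congr rfl fun a _ => ?_
  have := K.re_inner_starProjection_eq_normSq (b a)
  rw [inner_re_symm] at this
  exact this.symm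

theorem exists_bad (T : E →L[ℂ] E) {β c : ℝ} (hβ : 0 ≤ β) (m : ℕ)
    (h : ‖LinearMap.trace ℂ E ((star T * T) ^ m : E →L[ℂ] E)‖ ≤ c) :
    ∃ K : Submodule ℂ E, finrank ℂ K * (β ^ 2) ^ m ≤ c ∧ ∀ ξ ∈ Kᗮ, ‖T ξ‖ ≤ β * ‖ξ‖ := by
  classical
  have hs : (star T * T : E →L[ℂ] E).toLinearMap.IsSymmetric :=
    (IsSelfAdjoint.star_mul_self T).isSymmetric
  let b := hs.eigenvectorBasis rfl
  let l := hs.eigenvalues rfl
  have hb : ∀ i, (star T * T) (b i) = (l i : ℂ) • b i := hs.apply_eigenvectorBasis rfl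
  have hq : ∀ ξ η, inner ℂ ξ ((star T * T) η) = inner ℂ (T ξ) (T η) := fun ξ η =>
    ContinuousLinearMap.adjoint_inner_right T ξ (T η)
  have hl : ∀ i, 0 ≤ l i := fun i => by
    have := hq (b i) (b i)
    rw [hb, inner_smul_right, inner_self_eq_norm_sq_to_K, inner_self_eq_norm_sq_to_K,
      b.orthonormal.1 i] at this
    have e : l i = ‖T (b i)‖ ^ 2 := by
      apply Complex.ofReal_injective
      simpa using this
    rw [e]
    positivity
  have hp : ∀ m i, ((star T * T) ^ m : E →L[ℂ] E) (b i) = ((l i ^ m : ℝ) : ℂ) • b i := fun m i => by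
    induction m with
    | zero => simp
    | succ m ih =>
      rw [pow_succ', mul_apply_eq_comp, ih, map_smul, hb, smul_smul, pow_succ]
      push_cast
      rfl
  let t := univ.filter fun i => β ^ 2 < l i
  refine ⟨Submodule.span ℂ (t.image b), le_trans ?_ h, fun ξ hξ => ?_⟩
  · have e : LinearMap.trace ℂ E ((star T * T) ^ m : E →L[ℂ] E) = ((∑ i, l i ^ m : ℝ) : ℂ) := by
      rw [LinearMap.trace_eq_sum_inner _ b, Complex.ofReal_sum]
      refine sum_congr rfl fun i _ => ?_
      rw [ContinuousLinearMap.coe_coe, hp, inner_smul_right, inner_self_eq_norm_sq_to_K,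
        b.orthonormal.1 i]
      simp
    rw [e, Complex.norm_real, Real.norm_of_nonneg (sum_nonneg fun i _ => pow_nonneg (hl i) m)]
    have h1 : (finrank ℂ (Submodule.span ℂ (t.image b : Set E)) : ℝ) ≤ t.card := by
      exact_mod_cast (finrank_span_finset_le_card _).trans card_image_le
    calc _ ≤ (t.card : ℝ) * (β ^ 2) ^ m := by gcongr
      _ = ∑ i ∈ t, (β ^ 2) ^ m := by rw [sum_const, nsmul_eq_mul]
      _ ≤ ∑ i ∈ t, l i ^ m := sum_le_sum fun i hi => by
          gcongr
          exact (mem_filter.1 hi).2.le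
      _ ≤ _ := sum_le_sum_of_subset_of_nonneg (subset_univ _) fun i _ _ => pow_nonneg (hl i) m
  · refine abs_le_of_sq_le_sq' ?_ (by positivity) |>.2
    have e : ((‖T ξ‖ ^ 2 : ℝ) : ℂ) = ((∑ i, l i * ‖inner ℂ (b i) ξ‖ ^ 2 : ℝ) : ℂ) := by
      have h1 := hq ξ ξ
      rw [inner_self_eq_norm_sq_to_K, ← b.sum_inner_mul_inner] at h1
      push_cast
      refine h1.symm.trans (sum_congr rfl fun i _ => ?_)
      have h2 : inner ℂ (b i) ((star T * T) ξ) = l i * inner ℂ (b i) ξ := by
        refine (hs (b i) ξ).symm.trans ?_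
        rw [ContinuousLinearMap.coe_coe, hb, inner_smul_left, Complex.conj_ofReal]
      rw [h2, mul_left_comm, ← inner_conj_symm ξ, Complex.conj_mul']
    rw [Complex.ofReal_inj.1 e, mul_pow, ← b.sum_sq_norm_inner_right, mul_sum]
    refine sum_le_sum fun i _ => ?_
    by_cases hi : i ∈ t
    · rw [(Submodule.mem_orthogonal _ _).1 hξ (b i)
        (Submodule.subset_span (mem_coe.2 (mem_image_of_mem _ hi)))]
      simp
    · gcongr
      exact not_lt.1 fun h => hi (mem_filter.2 ⟨mem_univ _, h⟩)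

theorem exists_cut (K₀ : Submodule ℂ E) {N : ℕ} (hN : 0 < N) (u : Fin 5 → E →L[ℂ] E)
    (hu : ∀ i, ‖u i‖ ≤ 1) :
    ∃ h : E →L[ℂ] E, IsSelfAdjoint h ∧ ‖(2 : ℂ) • h - 1‖ ≤ 1 ∧
      (∀ i, ‖h * u i - u i * h‖ ≤ 2 / N) ∧ (1 - K₀.starProjection) * h = h ∧
      ∀ {ι : Type} [Fintype ι] (b : OrthonormalBasis ι ℂ E),
        ∑ a, ‖(1 - h) (b a)‖ ^ 2 ≤ 11 ^ N * finrank ℂ K₀ := by
  let U : Fin 5 × Bool → E →L[ℂ] E := fun x => cond x.2 (u x.1) (star (u x.1))
  obtain ⟨K, rfl, hK⟩ : ∃ K : ℕ → Submodule ℂ E, K 0 = K₀ ∧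
      ∀ j, K (j + 1) = K j ⊔ univ.sup fun x => (K j).map (U x).toLinearMap :=
    ⟨fun j => Nat.rec K₀ (fun _ L => L ⊔ univ.sup fun x => L.map (U x).toLinearMap) j, rfl,
      fun _ => rfl⟩
  have hr : ∀ j : ℕ, finrank ℂ ↥(K j) ≤ 11 ^ j * finrank ℂ (K 0) := fun j => by
    induction j with
    | zero => simp
    | succ j ih =>
      have h1 := (finrank_sup_le univ fun x => (K j).map (U x).toLinearMap).trans
        (sum_le_sum fun x _ => Submodule.finrank_map_le _ _)
      rw [sum_const, card_univ, smul_eq_mul] at h1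
      simp only [Fintype.card_prod, Fintype.card_fin, Fintype.card_bool] at h1
      rw [hK, pow_succ]
      refine (Submodule.finrank_add_le_finrank_add_finrank _ _).trans ?_
      linarith
  let p : ℕ → E →L[ℂ] E := fun j => (K j).starProjection
  have hp : ∀ j, IsStarProjection (p j) := fun j => isStarProjection_starProjection
  have hm : Monotone K := monotone_nat_of_le_succ fun j => hK j ▸ le_sup_left
  have hle : ∀ l j, l ≤ j → p j * p l = p l := fun l j h => ContinuousLinearMap.ext fun ξ =>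
    Submodule.starProjection_eq_self_iff.2 (hm h ((K l).starProjection_apply_mem ξ))
  have hle' : ∀ l j, l ≤ j → p l * p j = p l := fun l j h =>
    Submodule.starProjection_comp_starProjection_of_le (hm h)
  have hZ : ∀ x j, p (j + 1) * (U x * p j) = U x * p j := fun x j =>
    ContinuousLinearMap.ext fun ξ => Submodule.starProjection_eq_self_iff.2
      (((le_sup (f := fun x => (K j).map (U x).toLinearMap) (mem_univ x)).trans
        (le_sup_right.trans (hK j).ge)) ⟨_, (K j).starProjection_apply_mem ξ, rfl⟩)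
  have hN' : (N : ℂ) ≠ 0 := Nat.cast_ne_zero.2 hN.ne'
  have hN'' : (0 : ℝ) < N := Nat.cast_pos.2 hN
  have avg : ∀ f : ℕ → E →L[ℂ] E, (∀ j, ‖f j‖ ≤ 1) → ‖(N : ℂ)⁻¹ • ∑ j ∈ range N, f j‖ ≤ 1 :=
    fun f hf => by
    rw [norm_smul, norm_inv, Complex.norm_natCast, inv_mul_le_iff₀ hN'']
    exact (norm_sum_le_of_le _ fun j _ => hf j).trans (by simp)
  have cst : ∀ z : E →L[ℂ] E, (N : ℂ)⁻¹ • ∑ _j ∈ range N, z = z := fun z => by
    rw [sum_const, card_range, ← Nat.cast_smul_eq_nsmul ℂ, smul_smul, inv_mul_cancel₀ hN',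
      one_smul]
  let k := (N : ℂ)⁻¹ • ∑ j ∈ range N, p j
  refine ⟨1 - k, (IsSelfAdjoint.one _).sub ?_, ?_, fun i => ?_, ?_, fun b => ?_⟩
  · simp only [k, IsSelfAdjoint, star_smul, star_sum, (hp _).isSelfAdjoint.star_eq, star_inv₀,
      star_natCast]
  · have : (2 : ℂ) • (1 - k) - 1 = (N : ℂ)⁻¹ • ∑ j ∈ range N, (1 - (2 : ℂ) • p j) := by
      rw [sum_sub_distrib, smul_sub (N : ℂ)⁻¹, cst, ← smul_sum, smul_comm, smul_sub, two_smul ℂ 1]
      simp only [k]
      abel
    rw [this]
    refine avg _ fun j => (norm_le_of_pi le_rfl ?_).trans_eq (add_zero 1)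
    have e : (1 - (2 : ℂ) • p j) * (1 - (2 : ℂ) • p j) = 1 := by
      simp only [two_smul, mul_sub, sub_mul, mul_add, add_mul, one_mul, mul_one, hle j j le_rfl]
      abel
    rw [star_sub, star_smul, star_one, (hp j).isSelfAdjoint.star_eq, star_ofNat, e, one_mul,
      sub_self, norm_zero]
  · have h1 := half_comm hp hle (hu i) (hZ (i, true)) N
    have h2 := half_comm hp hle ((norm_star (u i)).trans_le (hu i)) (hZ (i, false)) N
    rw [← norm_star] at h2
    have : (1 - k) * u i - u i * (1 - k) = (N : ℂ)⁻¹ • (∑ j ∈ range N, (1 - p j) * u i * p j -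
        star (∑ j ∈ range N, (1 - p j) * star (u i) * p j)) := by
      simp only [k, star_sum, star_mul, star_sub, star_star,
        (hp _).isSelfAdjoint.star_eq, ← sum_sub_distrib, sub_mul, mul_sub, one_mul, mul_one,
        smul_mul_assoc, mul_smul_comm, sum_mul, mul_sum, mul_assoc, sub_sub_sub_cancel_right]
      rw [sum_sub_distrib, smul_sub]
      abel
    rw [this, norm_smul, norm_inv, Complex.norm_natCast, inv_mul_eq_div]
    gcongr
    exact (norm_sub_le _ _).trans (by linarith)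
  · have : p 0 * k = p 0 := by
      rw [mul_smul_comm, mul_sum, sum_congr rfl fun j _ => hle' 0 j (Nat.zero_le j), cst]
    change (1 - p 0) * (1 - k) = _
    rw [sub_mul, one_mul, mul_sub, mul_one, this, sub_self, sub_zero]
  · have h1 : k * p N = k := by
      rw [smul_mul_assoc, sum_mul, sum_congr rfl fun j hj => hle' j N (mem_range.1 hj).le]
    have h2 : (finrank ℂ (K N) : ℝ) ≤ 11 ^ N * finrank ℂ (K 0) := by exact_mod_cast hr N
    rw [sub_sub_cancel, ← h1]
    refine (sum_le_sum fun a _ => ?_).trans ((sum_proj b (K N)).trans_le h2)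
    gcongr
    exact (k.le_opNorm _).trans (mul_le_of_le_one_left (norm_nonneg _)
      (avg _ fun j => (hp j).norm_le))

end Pool.Agent.MP_e9d43c_an.H41
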