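import Pool.Agent.MP_e9d43c_an.H41.Stage
import Pool.Agent.MP_e9d43c_an.H41.Cone

/-!
Assembly in the ultrapower.
-/

namespace Pool.Agent.MP_e9d43c_an.H41

open Filter Topology BoundedContinuousFunction TopologicalSpace Pool.Agent.MP_e9d43c_an.H44

variable {O : Type} [CStarAlgebra O] {M : Type} [CStarAlgebra M]

instance : Countable F5 := FreeGroup.toWord_injective.countable

theorem separable_cone (v : F5 →* O) : SeparableSpace (cone v) := by
  apply IsSeparable.separableSpace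
  refine IsSeparable.closure
    (s := (StarAlgebra.adjoin ℂ (Set.range (gen v)) : Set C(unitInterval, O))) ?_
  generalize gen v = Y
  have h1 : Set.range Y ∪ star (Set.range Y) = Set.range (Sum.elim Y fun i => star (Y i)) := by
    rw [Set.Sum.elim_range]
    congr 1
    ext b
    simp only [Set.mem_star, Set.mem_range]
    exact exists_congr fun i => ⟨fun h => by rw [h, star_star], fun h => by rw [← h, star_star]⟩
  have h2 : (StarAlgebra.adjoin ℂ (Set.range Y) : Set C(unitInterval, O)) = Submodule.span ℂ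
      (Submonoid.closure (Set.range (Sum.elim Y fun i => star (Y i))) : Set C(unitInterval, O)) := by
    rw [← Algebra.adjoin_eq_span, ← h1, ← StarAlgebra.adjoin_toSubalgebra]; rfl
  rw [h2, ← FreeMonoid.mrange_lift]
  have : Countable (FreeMonoid (F5 ⊕ F5)) := FreeMonoid.toList.injective.countable
  exact (Set.countable_range _).isSeparable.span

theorem hom_le {A : Type} [CStarAlgebra A] (φ : A →⋆ₙₐ[ℂ] M) (a : A) : ‖φ a‖ ≤ ‖a‖ :=
  NonUnitalStarAlgHom.norm_apply_le φ a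

theorem finish {A : Type} [CStarAlgebra A] {s t : M} (hM : Cz s t) (φ : A →⋆ₙₐ[ℂ] M)
    (hφ : Function.Injective φ) (χ : A →⋆ₐ[ℂ] M) (y : Fin 5 → A)
    (hχ : ∀ w : M, ‖w‖ ≤ 1 → ¬∀ i, star w * φ (y i) * w = χ (y i)) :
    ∃ ψ : A →⋆ₙₐ[ℂ] M, Function.Injective ψ ∧ (φ 1 = 1 → ψ 1 = 1) ∧
      (∃ v : M, star v * v = 1 ∧ ∀ a, star v * ψ a * v = φ a) ∧
      ¬∃ u : M, ∀ a, star u * φ a * u = ψ a := by
  refine ⟨ds hM φ χ, ds_inj hM hφ _, fun h => ?_, ⟨_, hM.ss, ds_left hM φ _⟩, ?_⟩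
  · rw [ds_apply, h, show (χ : A →⋆ₙₐ[ℂ] M) 1 = 1 from map_one χ, mul_one, mul_one, hM.sum]
  · rintro ⟨u, hu⟩
    have key : ∀ a, star (φ 1 * (u * t)) * φ a * (φ 1 * (u * t)) = χ a := fun a => by
      refine Eq.trans ?_ (ds_right hM φ χ a)
      rw [← hu, star_mul, ← map_star φ, star_one, mul_assoc _ (φ 1), ← map_mul φ, one_mul,
        mul_assoc, ← mul_assoc (φ a), ← map_mul φ, mul_one, star_mul]
      simp only [mul_assoc]
    refine hχ _ (norm_le_one (pi_of_iso ?_)) fun i => key _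
    have := key 1
    rwa [mul_assoc, ← mul_assoc (φ 1) (φ 1), ← map_mul φ, mul_one, map_one χ] at this

variable [Nontrivial O] {U : Ultrafilter ℕ} {q : (ℕ →ᵇ O) →⋆ₐ[ℂ] M}

omit [Nontrivial O] in
theorem exists_emb {s t : O} (hO : Cz s t) (hq : UP U q) :
    ∃ Ψ : C(unitInterval, O) →⋆ₐ[ℂ] M, Function.Injective Ψ := by
  let e : ℕ → C(unitInterval, O) →⋆ₙₐ[ℂ] O := fun j =>
    { toFun := fun a => a (denseSeq unitInterval j)
      map_smul' := fun _ _ => rfl
      map_zero' := rfl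
      map_add' := fun _ _ => rfl
      map_mul' := fun _ _ => rfl
      map_star' := fun _ => rfl }
  let Φ : ℕ → C(unitInterval, O) →⋆ₙₐ[ℂ] O := fun n =>
    Nat.rec (e 0) (fun n f => ds hO (e (n + 1)) f) n
  have h1 : ∀ n, Φ n 1 = 1 := fun n => by
    induction n with
    | zero => rfl
    | succ n ih =>
      change s * 1 * star s + t * Φ n 1 * star t = 1
      rw [ih, mul_one, mul_one, hO.sum]
  have cp : ∀ {u : O}, star u * u = 1 → ∀ a : O, ‖star u * a * u‖ ≤ ‖a‖ := fun {u} hu a => by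
    have := norm_le_one (pi_of_iso hu)
    refine norm_mul₃_le.trans ?_
    rw [norm_star]
    calc _ ≤ 1 * ‖a‖ * 1 := by gcongr
      _ = _ := by ring
  have h2 : ∀ a n, ∀ j ≤ n, ‖e j a‖ ≤ ‖Φ n a‖ := fun a n => by
    induction n with
    | zero => intro j hj; rw [Nat.le_zero.1 hj]; rfl
    | succ n ih =>
      intro j hj
      rcases hj.eq_or_lt with rfl | hj
      · exact ds_left hO (e (n + 1)) (Φ n) a ▸ cp hO.ss _
      · exact (ih j (Nat.le_of_lt_succ hj)).trans (ds_right hO (e (n + 1)) (Φ n) a ▸ cp hO.tt _)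
  refine ⟨toUnital ((q : (ℕ →ᵇ O) →⋆ₙₐ[ℂ] M).comp (seqHom Φ)) ?_, ?_⟩
  · exact (congrArg q (BoundedContinuousFunction.ext h1)).trans (map_one q)
  · refine (injective_iff_map_eq_zero _).2 fun a ha => ContinuousMap.ext fun x => ?_
    refine (denseRange_denseSeq unitInterval).induction_on x
      (isClosed_eq a.continuous continuous_const) fun j => norm_le_zero_iff.1 ?_
    have : ∀ᶠ n in U, j ≤ n := hq.free (Nat.cofinite_eq_atTop ▸ eventually_ge_atTop j)
    exact ge_of_tendsto ((hq.ker _).1 ha) (this.mono fun n hn => h2 a n j hn)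

theorem exists_far {s : ℕ → O} (hs : Iso s) (hd : Dense (Poly s : Set O)) {v : F5 →* O}
    (hv : URep v) (hv' : ∀ P : GA, ‖P.coeff 1‖ ≤ ‖ev v P‖) (hq : UP U q) (y : Fin 5 → M)
    (hy : ∀ i, ‖y i‖ ≤ 1) : ∃ ψ : cone v →⋆ₐ[ℂ] M, ∀ w : M, ‖w‖ ≤ 1 →
      ¬∀ i, star w * y i * w = ψ ⟨gen v (.of i), gen_mem v _⟩ := by
  classical
  have lt : ∀ {z : ℕ →ᵇ O} {c : ℝ}, ‖q z‖ ≤ c → ∀ᶠ n in U, ‖z n‖ ≤ c + 1 / 10 ^ 13 :=
    fun {z c} h => (hq.nt z).eventually (ge_mem_nhds (h.trans_lt (by norm_num)))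
  have : ∀ i, ∃ x : ℕ →ᵇ O, q x = y i ∧ ∀ n, ‖x n‖ ≤ 1 + 1 / 10 ^ 13 := fun i => by
    obtain ⟨z, hz⟩ := hq.surj (y i)
    exact hz ▸ hq.trunc z (by positivity) (lt (hz ▸ hy i))
  choose x hx xb using this
  let P : Finset F5 → (F5 → ℂ) → GA := fun A c => ∑ g ∈ A, .single g (c g)
  obtain ⟨ν, hν⟩ := exists_surjective_nat (Finset F5 × ℕ)
  choose h V h1 h2 h3 h4 h5 h6 using fun n : ℕ => stage hs hd hv hv'
    ((Finset.range n).image fun j => P (ν j).1 (denseSeq (F5 → ℂ) (ν j).2))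
    (ε := 1 / (n + 1)) (by positivity) (fun i => x i n) fun i => xb i n
  have hb : ∀ n, ‖h n‖ ≤ 1 := fun n => by
    have := norm_le_norm_add_norm_sub' ((2 : ℂ) • h n) 1
    rw [norm_smul, norm_one, Complex.norm_ofNat] at this
    linarith [h3 n]
  let H : ℕ →ᵇ O := ofNormedAddCommGroupDiscrete h 1 hb
  let W : F5 →* ℕ →ᵇ O :=
    { toFun := fun g => ofNormedAddCommGroupDiscrete (fun n => V n g) _ fun n => (h1 n).norm_le g
      map_one' := by ext n; exact map_one (V n)
      map_mul' := fun g g' => by ext n; exact map_mul (V n) g g' }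
  let Z : F5 →* M := q.toAlgHom.toMonoidHom.comp W
  have eZ : ∀ g, Z g = q (W g) := fun _ => rfl
  have hZ : URep Z := fun g => by
    rw [eZ, eZ, ← map_star]
    exact congrArg q (BoundedContinuousFunction.ext fun n => h1 n g)
  have hH : IsSelfAdjoint (q H) := by
    rw [IsSelfAdjoint, ← map_star]
    exact congrArg q (BoundedContinuousFunction.ext fun n => h2 n)
  have hU : ∀ k, ∀ᶠ n in U, k ≤ n := fun k =>
    hq.free (Nat.cofinite_eq_atTop ▸ eventually_ge_atTop k)
  refine (cone_hom hv hZ hH ?_ (fun g => ?_) fun Q m => ?_).imp fun ψ hψ w hw he => ?_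
  rotate_right
  · obtain ⟨z, rfl⟩ := hq.surj w
    have : ∀ᶠ n in U, ∀ i, ‖(star z * x i * z - W (.of i) * H) n‖ ≤ 0 + 1 / 10 ^ 13 :=
      eventually_all.2 fun i => lt (by
        rw [map_sub, map_mul, map_mul, map_star, hx, he, hψ, map_mul, eZ, sub_self, norm_zero])
    obtain ⟨n, f1, f2⟩ := ((lt hw).and this).exists
    exact h6 n (z n) f1 fun i => (f2 i).trans_eq (zero_add _)
  · rw [← map_one q, ← map_smul, ← map_sub]
    exact (NonUnitalStarAlgHom.norm_apply_le q _).trans ((norm_le zero_le_one).2 h3)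
  · induction g using FreeGroup.induction_on with
    | C1 => rw [map_one]; exact Commute.one_left _
    | of i =>
      refine Commute.symm (sub_eq_zero.1 (norm_le_zero_iff.1 ?_))
      rw [eZ, ← map_mul, ← map_mul, ← map_sub]
      exact hq.le 0 fun k _ => (hU k).mono fun n hn =>
        (h4 n i).trans ((inv_mono hn).trans_eq (zero_add _).symm)
    | inv_of i ih => simpa only [hZ _, hH.star_eq] using ih.star_star
    | mul g g' a b => rw [map_mul]; exact a.mul_left b
  · obtain ⟨z, rfl⟩ := hq.surj m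
    have e : Q = P Q.coeff.support Q.coeff := (MonoidAlgebra.sum_coeff_single Q).symm
    rw [e]
    generalize Q.coeff.support = A
    refine (denseRange_denseSeq (F5 → ℂ)).induction_on (⇑Q.coeff) (isClosed_le ?_ ?_) fun l => ?_
    · simp only [P, map_sum, MonoidAlgebra.lift_single]
      fun_prop
    · simp only [P, map_sum, MonoidAlgebra.lift_single]
      fun_prop
    obtain ⟨j, hj⟩ := hν (A, l)
    have hm : ∀ n, j + 1 ≤ n → P A (denseSeq (F5 → ℂ) l) ∈ (Finset.range n).image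
        fun j => P (ν j).1 (denseSeq (F5 → ℂ) (ν j).2) := fun n hn =>
      Finset.mem_image.2 ⟨j, Finset.mem_range.2 hn, by rw [hj]⟩
    generalize P A (denseSeq (F5 → ℂ) l) = R at hm
    rw [← map_ev q (fun g => (eZ g).symm) R, ← map_mul, ← map_mul]
    have t1 := ((tendsto_one_div_add_atTop_nhds_zero_nat (𝕜 := ℝ)).mono_left
      (Nat.cofinite_eq_atTop ▸ hq.free)).const_add ‖ev v R‖
    rw [add_zero] at t1
    refine le_of_tendsto_of_tendsto (hq.nt _) (t1.mul (hq.nt _)) ((hU (j + 1)).mono fun n hn => ?_)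
    obtain ⟨C, c1, c2⟩ := h5 n R (hm n hn)
    change ‖ev W R n * (h n * z n)‖ ≤ _ * ‖h n * z n‖
    rw [show ev W R n = ev (V n) R from map_ev (evalHom n) (fun _ => rfl) R, ← mul_assoc, c2,
      mul_assoc]
    exact (norm_mul_le _ _).trans (mul_le_mul_of_nonneg_right c1 (norm_nonneg _))

end Pool.Agent.MP_e9d43c_an.H41
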