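import Pool.Agent.MP_e9d43c_an.H44.Seq

/-!
The free group on five generators: unitary representations, a free family of unitaries in the
Cuntz algebra, finite quotients.
-/

namespace Pool.Agent.MP_e9d43c_an.H41

open Pool.Agent.MP_e9d43c_an.H44

abbrev F5 := FreeGroup (Fin 5)

abbrev GA := MonoidAlgebra ℂ F5

/-- Unitary representations. -/
def URep {R : Type} [Monoid R] [StarMul R] (V : F5 →* R) : Prop := ∀ g, star (V g) = V g⁻¹

/-- Evaluation of an element of the group algebra. -/
noncomputable abbrev ev {R : Type} [Ring R] [Algebra ℂ R] (V : F5 →* R) : GA →ₐ[ℂ] R :=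
  MonoidAlgebra.lift ℂ R F5 V

/-- The adjoint in the group algebra. -/
noncomputable def adj (P : GA) : GA := P.coeff.sum fun g c => MonoidAlgebra.single g⁻¹ (star c)

theorem ev_adj {R : Type} [Ring R] [StarRing R] [Algebra ℂ R] [StarModule ℂ R] {V : F5 →* R}
    (hV : URep V) (P : GA) : ev V (adj P) = star (ev V P) := by
  rw [adj, MonoidAlgebra.lift_apply V P]
  simp only [Finsupp.sum, map_sum, MonoidAlgebra.lift_single, star_sum, star_smul, hV _]

/-- The representation with given unitaries as images of the generators. -/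
def mkRep {R : Type} [Monoid R] [StarMul R] (u : Fin 5 → unitary R) : F5 →* R :=
  (unitary R).subtype.comp (FreeGroup.lift u)

theorem uRep_mkRep {R : Type} [Monoid R] [StarMul R] (u : Fin 5 → unitary R) :
    URep (mkRep u) := fun g => by
  simp only [mkRep, MonoidHom.comp_apply, map_inv, Submonoid.subtype_apply]
  rfl

theorem mkRep_of {R : Type} [Monoid R] [StarMul R] (u : Fin 5 → unitary R) (i : Fin 5) :
    mkRep u (FreeGroup.of i) = u i := by simp [mkRep]

theorem URep.norm_le {R : Type} [CStarAlgebra R] {V : F5 →* R} (h : URep V) (g : F5) :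
    ‖V g‖ ≤ 1 + 0 := norm_le_of_pi le_rfl (by
  rw [h g, ← map_mul, ← map_mul, mul_inv_cancel, one_mul, sub_self, norm_zero])

variable {O : Type} [CStarAlgebra O] {s : ℕ → O}

theorem exists_co (hs : Iso s) (hsum : s 0 * star (s 0) + s 1 * star (s 1) = 1) (j : ℕ) :
    ∃ R : O, star R * R = 1 ∧ R * star R = 1 - tt s j * star (tt s j) := by
  have h00 := hs 0 two_pos 0 two_pos
  have h01 := hs 0 two_pos 1 one_lt_two
  have h10 := hs 1 one_lt_two 0 two_pos
  have h11 := hs 1 one_lt_two 1 one_lt_two
  simp only [if_true, zero_ne_one, one_ne_zero, if_false] at h00 h01 h10 h11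
  induction j with
  | zero => exact ⟨s 1, h11, by rw [← hsum]; simp [tt]⟩
  | succ j ih =>
    obtain ⟨R, h1, h2⟩ := ih
    have e : ∀ X Y : O, (s 0 * star (s 0) + s 1 * X * star (s 1)) *
        (s 0 * star (s 0) + s 1 * Y * star (s 1)) =
        s 0 * star (s 0) + s 1 * (X * Y) * star (s 1) := fun X Y => by
      calc _ = s 0 * (star (s 0) * s 0) * star (s 0) + s 0 * (star (s 0) * s 1) * Y * star (s 1) +
            s 1 * X * (star (s 1) * s 0) * star (s 0) +
            s 1 * X * (star (s 1) * s 1) * Y * star (s 1) := by noncomm_ring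
        _ = _ := by simp [h00, h01, h10, h11, mul_assoc]
    have e' : star (s 0 * star (s 0) + s 1 * R * star (s 1)) =
        s 0 * star (s 0) + s 1 * star R * star (s 1) := by simp [mul_assoc]
    refine ⟨s 0 * star (s 0) + s 1 * R * star (s 1), ?_, ?_⟩
    · rw [e', e, h1, mul_one, hsum]
    · rw [e', e, h2, mul_sub, sub_mul, mul_one, ← add_sub_assoc, hsum, tt, tt, pow_succ']
      simp only [star_mul, mul_assoc]

theorem exists_free [Nontrivial O] (hs : Iso s)
    (hsum : s 0 * star (s 0) + s 1 * star (s 1) = 1) :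
    ∃ v : F5 →* O, URep v ∧ ∀ P : GA, ‖P.coeff 1‖ ≤ ‖ev v P‖ := by
  choose R h1 h2 using exists_co hs hsum
  have tt1 : ∀ j, star (tt s j) * tt s j = 1 := fun j => by rw [tt_orth hs, if_pos rfl]
  have h3 : ∀ j, star (R j) * tt s j = 0 := fun j => by
    have : star (R j) * (R j * star (R j)) * tt s j = 0 := by
      rw [h2, mul_assoc, sub_mul, one_mul, mul_assoc, tt1, mul_one, sub_self, mul_zero]
    rwa [← mul_assoc, h1, one_mul] at this
  have h4 : ∀ j, star (tt s j) * R j = 0 := fun j => by simpa using congrArg star (h3 j)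
  let w : ℕ → ℕ → O := fun a b => tt s a * star (R b) + R a * star (tt s b)
  have hw : ∀ a b, star (w a b) = w b a := fun a b => by simp [w, add_comm]
  have hw' : ∀ a b, w a b * w b a = 1 := fun a b => by
    calc _ = tt s a * (star (R b) * tt s b) * star (R a) +
          tt s a * (star (R b) * R b) * star (tt s a) +
          R a * (star (tt s b) * tt s b) * star (R a) +
          R a * (star (tt s b) * R b) * star (tt s a) := by simp only [w]; noncomm_ring
      _ = 1 := by simp [h1, h2, h3, h4, tt1]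
  let u : Fin 5 → unitary O := fun i =>
    ⟨w (2 * i + 1) (2 * i + 2), by rw [hw, hw'], by rw [hw, hw']⟩
  let ix : Fin 5 × Bool → ℕ := fun x => cond x.2 (2 * x.1 + 1) (2 * x.1 + 2)
  have step : ∀ (x : Fin 5 × Bool) (L : List (Fin 5 × Bool)),
      mkRep u (FreeGroup.mk (x :: L)) =
        w (ix x) (ix (x.1, !x.2)) * mkRep u (FreeGroup.mk L) := by
    rintro ⟨i, _ | _⟩ L
    · simp only [mkRep, MonoidHom.comp_apply, FreeGroup.lift_mk, List.map_cons, List.prod_cons,
        map_mul, cond_false]
      congr 1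
      exact hw _ _
    · simp only [mkRep, MonoidHom.comp_apply, FreeGroup.lift_mk, List.map_cons, List.prod_cons,
        map_mul, cond_true]
      rfl
  have step2 : ∀ a b k (η : O), k ≠ b → ∃ η', w a b * (tt s k * η) = tt s a * η' :=
    fun a b k η hk => ⟨star (R b) * (tt s k * η), by
      simp only [w, add_mul, mul_assoc]
      rw [← mul_assoc (star (tt s b)), tt_orth hs, if_neg hk.symm, zero_mul, mul_zero, add_zero]⟩
  have key : ∀ (L : List (Fin 5 × Bool)) (x : Fin 5 × Bool), FreeGroup.IsReduced (x :: L) →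
      ∃ η, mkRep u (FreeGroup.mk (x :: L)) * tt s 0 = tt s (ix x) * η := by
    intro L
    induction L with
    | nil =>
      intro x _
      rw [step, ← FreeGroup.one_eq_mk, map_one, mul_one, ← mul_one (tt s 0)]
      exact step2 _ _ _ _ (by rcases x with ⟨i, _ | _⟩ <;> simp [ix])
    | cons y L ih =>
      intro x hx
      rw [FreeGroup.IsReduced, List.isChain_cons_cons] at hx
      obtain ⟨η, hη⟩ := ih y hx.2
      rw [step, mul_assoc, hη]
      refine step2 _ _ _ _ fun e => ?_
      have h := hx.1
      rcases x with ⟨i, _ | _⟩ <;> rcases y with ⟨j, _ | _⟩ <;>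
        simp only [ix, cond_true, cond_false, Bool.not_true, Bool.not_false] at e h <;>
        first | omega | exact absurd (h (Fin.ext (by omega))) (by decide)
  have free : ∀ g : F5, g ≠ 1 → star (tt s 0) * mkRep u g * tt s 0 = 0 := fun g hg => by
    have h := FreeGroup.isReduced_toWord (x := g)
    rw [← FreeGroup.mk_toWord (x := g)] at hg ⊢
    generalize g.toWord = L at h hg
    rcases L with _ | ⟨x, L⟩
    · exact absurd FreeGroup.one_eq_mk.symm hg
    · obtain ⟨η, hη⟩ := key L x h
      rw [mul_assoc, hη, ← mul_assoc, tt_orth hs, if_neg, zero_mul]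
      rcases x with ⟨i, _ | _⟩ <;> simp [ix]
  refine ⟨mkRep u, uRep_mkRep u, fun P => ?_⟩
  have e : star (tt s 0) * ev (mkRep u) P * tt s 0 = P.coeff 1 • 1 := by
    rw [MonoidAlgebra.lift_apply, Finsupp.sum, Finset.mul_sum, Finset.sum_mul,
      Finset.sum_eq_single 1]
    · rw [map_one (mkRep u), mul_smul_comm, smul_mul_assoc, mul_one, tt1]
    · intro g _ hg
      rw [mul_smul_comm, smul_mul_assoc, free g hg, smul_zero]
    · intro h
      simp [Finsupp.notMem_support_iff.1 h]
  have ht : ‖tt s 0‖ ≤ 1 + 0 := norm_le_of_pi le_rfl (by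
    rw [mul_assoc, tt1, mul_one, sub_self, norm_zero])
  have := norm_mul₃_le (a := star (tt s 0)) (b := ev (mkRep u) P) (c := tt s 0)
  rw [e, norm_smul, norm_one, mul_one, norm_star] at this
  refine this.trans ?_
  calc _ ≤ 1 * ‖ev (mkRep u) P‖ * 1 := by gcongr <;> linarith
    _ = _ := by ring

theorem exists_fin (W : Finset F5) : ∃ (G : Type) (_ : Group G) (_ : Fintype G) (ρ : F5 →* G),
    ∀ w ∈ W, w ≠ 1 → ρ w ≠ 1 := by
  classical
  obtain ⟨m, hm⟩ := (W.finite_toSet.image FreeGroup.norm).bddAbove
  let B : Set F5 := {g | g.norm ≤ m}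
  have hB : B.Finite := (List.finite_length_le (Fin 5 × Bool) m).preimage
    FreeGroup.toWord_injective.injOn
  have := hB.fintype
  have : ∀ i : Fin 5, ∃ σ : Equiv.Perm B, ∀ (g : B) (h : FreeGroup.of i * g ∈ B),
      σ g = ⟨_, h⟩ := fun i => by
    obtain ⟨σ, hσ⟩ := Equiv.Perm.exists_extending_pair
      (fun g : {g : B // FreeGroup.of i * g ∈ B} => g.1) (fun g => (⟨_, g.2⟩ : B))
      Subtype.val_injective fun a b h =>
        Subtype.ext (Subtype.ext (mul_left_cancel (congrArg Subtype.val h)))
    exact ⟨σ, fun g h => hσ ⟨g, h⟩⟩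
  choose σ hσ using this
  have one : (1 : F5) ∈ B := by simp [B]
  have key : ∀ L : List (Fin 5 × Bool), L.length ≤ m →
      (FreeGroup.lift σ (FreeGroup.mk L) ⟨1, one⟩ : B).1 = FreeGroup.mk L := by
    intro L
    induction L with
    | nil => intro _; rfl
    | cons x L ih =>
      intro hL
      have h1 : FreeGroup.mk (x :: L) ∈ B := FreeGroup.norm_mk_le.trans hL
      have h2 := ih (Nat.le_of_succ_le hL)
      rw [FreeGroup.lift_mk] at h2
      rw [FreeGroup.lift_mk, List.map_cons, List.prod_cons, Equiv.Perm.mul_apply]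
      generalize (List.map (fun x => bif x.2 then σ x.1 else (σ x.1)⁻¹) L).prod ⟨1, one⟩ = g at h2
      rcases x with ⟨i, _ | _⟩
      · have h3 : FreeGroup.of i * FreeGroup.mk ((i, false) :: L) = g := by
          rw [h2, FreeGroup.of, FreeGroup.mul_mk]
          exact Quot.sound (FreeGroup.Red.Step.cons_not (b := true))
        have h4 := hσ i ⟨_, h1⟩ (h3 ▸ g.2)
        simp only [h3, Subtype.coe_eta] at h4
        rw [cond_false, ← h4]
        simp
      · have h3 : FreeGroup.of i * g = FreeGroup.mk ((i, true) :: L) := by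
          rw [h2, FreeGroup.of, FreeGroup.mul_mk]
          rfl
        rw [cond_true, hσ i g (h3 ▸ h1)]
        exact h3
  refine ⟨Equiv.Perm B, inferInstance, inferInstance, FreeGroup.lift σ, fun w hw h1 h => h1 ?_⟩
  have := key w.toWord (hm ⟨w, hw, rfl⟩)
  rw [FreeGroup.mk_toWord, h] at this
  exact this.symm

end Pool.Agent.MP_e9d43c_an.H41
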