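import Pool.Agent.MP_e9d43c_an.H41.Approx

/-!
A maximal embedding for one nonprincipal ultrafilter gives a greatest one for every other.
-/

namespace Pool.Agent.MP_e9d43c_an.H41

open Filter Topology BoundedContinuousFunction TopologicalSpace

/-- Two isometries with complementary ranges. -/
structure Cz {R : Type} [Ring R] [StarRing R] (s t : R) : Prop where
  ss : star s * s = 1
  tt : star t * t = 1
  sum : s * star s + t * star t = 1

section

variable {A : Type} [NonUnitalCStarAlgebra A] {M : Type} [CStarAlgebra M] {s t : M}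

theorem Cz.ts (h : Cz s t) : star t * s = 0 := by
  rw [← CStarRing.star_mul_self_eq_zero_iff, star_mul, star_star]
  have : star s * (s * star s + t * star t) * s =
      (star s * s) * (star s * s) + star s * t * (star t * s) := by noncomm_ring
  rw [h.sum, mul_one, h.ss, mul_one] at this
  exact left_eq_add.1 this

theorem Cz.st (h : Cz s t) : star s * t = 0 := by simpa using congrArg star h.ts

/-- Direct sum of two homomorphisms. -/
noncomputable def ds (h : Cz s t) (φ ψ : A →⋆ₙₐ[ℂ] M) : A →⋆ₙₐ[ℂ] M where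
  toFun a := s * φ a * star s + t * ψ a * star t
  map_smul' c a := by simp
  map_zero' := by simp
  map_add' a b := by simp only [map_add]; noncomm_ring
  map_mul' a b := by
    have e : ∀ u v x y : M, u * x * star u * (v * y * star v) =
        u * x * (star u * v) * y * star v := fun u v x y => by simp only [mul_assoc]
    simp only [map_mul, add_mul, mul_add, e, h.ss, h.tt, h.st, h.ts]
    simp [mul_assoc]
  map_star' a := by simp [map_star, mul_assoc]

theorem ds_apply (h : Cz s t) (φ ψ : A →⋆ₙₐ[ℂ] M) (a : A) :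
    ds h φ ψ a = s * φ a * star s + t * ψ a * star t := rfl

theorem ds_left (h : Cz s t) (φ ψ : A →⋆ₙₐ[ℂ] M) (a : A) : star s * ds h φ ψ a * s = φ a := by
  have : star s * ds h φ ψ a * s = (star s * s) * φ a * (star s * s) +
      (star s * t) * ψ a * (star t * s) := by rw [ds_apply]; noncomm_ring
  simp [this, h.ss, h.st]

theorem ds_right (h : Cz s t) (φ ψ : A →⋆ₙₐ[ℂ] M) (a : A) : star t * ds h φ ψ a * t = ψ a := by
  have : star t * ds h φ ψ a * t = (star t * s) * φ a * (star s * t) +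
      (star t * t) * ψ a * (star t * t) := by rw [ds_apply]; noncomm_ring
  simp [this, h.tt, h.st]

theorem ds_inj (h : Cz s t) {φ : A →⋆ₙₐ[ℂ] M} (hφ : Function.Injective φ) (ψ : A →⋆ₙₐ[ℂ] M) :
    Function.Injective (ds h φ ψ) := fun a b hab =>
  hφ (by rw [← ds_left h φ ψ a, hab, ds_left])

theorem norm_le_one {u : M} (h : u * star u * u = u) : ‖u‖ ≤ 1 := by
  have h1 : IsStarProjection (star u * u) :=
    ⟨by rw [IsIdempotentElem, mul_assoc, ← mul_assoc u, h], IsSelfAdjoint.star_mul_self u⟩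
  have h2 := h1.norm_le
  rw [CStarRing.norm_star_mul_self] at h2
  nlinarith [norm_nonneg u]

theorem pi_of_iso {u : M} (h : star u * u = 1) : u * star u * u = u := by
  rw [mul_assoc, h, mul_one]

variable {O : Type} [CStarAlgebra O]

theorem Cz.map {s t : O} (h : Cz s t) (q : (ℕ →ᵇ O) →⋆ₐ[ℂ] M) :
    Cz (q (const ℕ s)) (q (const ℕ t)) := by
  refine ⟨?_, ?_, ?_⟩ <;>
    simp only [← map_star, ← map_mul, ← map_add] <;> rw [← map_one q] <;> congr 1 <;> ext n
  exacts [h.ss, h.tt, h.sum]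

/-- A homomorphism that preserves the unit, as a unital homomorphism. -/
noncomputable def toUnital {B R : Type} [CStarAlgebra B] [Ring R] [StarRing R] [Algebra ℂ R]
    (f : B →⋆ₙₐ[ℂ] R) (h : f 1 = 1) : B →⋆ₐ[ℂ] R where
  toFun := f
  map_one' := h
  map_mul' := map_mul f
  map_zero' := map_zero f
  map_add' := map_add f
  commutes' c := by
    rw [Algebra.algebraMap_eq_smul_one, map_smul, h, Algebra.algebraMap_eq_smul_one]
  map_star' := map_star f

end

theorem transfer {O : Type} [CStarAlgebra O] [Nontrivial O] {s t : O} (hO : Cz s t)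
    {A : Type} [NonUnitalCStarAlgebra A] [SeparableSpace A] (un : Prop) (e : A)
    {U V : Ultrafilter ℕ} {M N : Type} [CStarAlgebra M] [CStarAlgebra N]
    {q : (ℕ →ᵇ O) →⋆ₐ[ℂ] M} {r : (ℕ →ᵇ O) →⋆ₐ[ℂ] N} (hq : UP U q) (hr : UP V r)
    (φ : A →⋆ₙₐ[ℂ] M) (hφ : Function.Injective φ) (hu : un → φ e = 1)
    (hmax : ∀ ψ : A →⋆ₙₐ[ℂ] M, Function.Injective ψ → (un → ψ e = 1) →
      (∃ u : M, u * star u * u = u ∧ ∀ a, star u * ψ a * u = φ a) →
      ∃ u : M, u * star u * u = u ∧ ∀ a, star u * φ a * u = ψ a) :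
    ∃ φ' : A →⋆ₙₐ[ℂ] N, Function.Injective φ' ∧ (un → φ' e = 1) ∧
      ∀ ψ : A →⋆ₙₐ[ℂ] N, (un → ψ e = 1) →
        ∃ u : N, star u * u = 1 ∧ ∀ a, star u * φ' a * u = ψ a := by
  classical
  let a : ℕ → A := fun n => Nat.casesOn n e (denseSeq A)
  have ha : DenseRange a := (denseRange_denseSeq A).mono (by
    rintro _ ⟨n, rfl⟩
    exact ⟨n + 1, rfl⟩)
  obtain ⟨x, hx, xb, xa⟩ := hq.lift (un := un) (a := a) φ hu
  have key : ∀ k, ∃ K, ∀ᶠ n in U, ∀ y : ℕ → O, (∀ i, ‖y i‖ ≤ ‖a i‖ + 1) → Ap un a K y →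
      Dom k (fun i => x i n) y := fun k => by
    by_contra hc
    rw [not_exists] at hc
    obtain ⟨κ, hκ⟩ := diag hq.free fun K => Ultrafilter.eventually_not.2 (hc K)
    have : ∀ n, ∃ y : ℕ → O, (∀ i, ‖y i‖ ≤ ‖a i‖ + 1) ∧ ((¬∀ y : ℕ → O,
        (∀ i, ‖y i‖ ≤ ‖a i‖ + 1) → Ap un a (κ n) y → Dom k (fun i => x i n) y) →
        Ap un a (κ n) y ∧ ¬Dom k (fun i => x i n) y) := fun n => by
      by_cases hn : ∀ y : ℕ → O, (∀ i, ‖y i‖ ≤ ‖a i‖ + 1) → Ap un a (κ n) y →
        Dom k (fun i => x i n) y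
      · exact ⟨0, fun i => by simp only [Pi.zero_apply, norm_zero]; positivity,
          fun h => absurd hn h⟩
      · push Not at hn
        obtain ⟨y, h1, h2⟩ := hn
        exact ⟨y, h1, fun _ => h2⟩
    choose y yb hy using this
    let z : ℕ → ℕ →ᵇ O := fun i => ofNormedAddCommGroupDiscrete (fun n => y n i) _ fun n => yb n i
    obtain ⟨ψ, h1, h2⟩ := hq.glue (un := un) ha z fun K =>
      (hκ K).mono fun n hn => (hy n hn.2).1.mono hn.1
    have hM := hO.map q
    obtain ⟨v, hv, hv'⟩ := hmax (ds hM φ ψ) (ds_inj hM hφ ψ)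
      (fun h => by rw [ds_apply, hu h, show ψ e = 1 from h2 h, mul_one, mul_one, hM.sum])
      ⟨_, pi_of_iso hM.ss, ds_left hM φ ψ⟩
    have h3 := hq.dom_lift x z (w := v * q (const ℕ t))
      ((norm_mul_le _ _).trans (mul_le_one₀ (norm_le_one hv) (norm_nonneg _)
        (norm_le_one (pi_of_iso hM.tt)))) (fun i => by
      rw [hx, ← h1, ← ds_right hM φ ψ, ← hv', star_mul]
      simp only [mul_assoc]) k
    obtain ⟨n, f1, f2⟩ := (h3.and (hκ 0)).exists
    exact (hy n f2.2).2 f1
  choose K hK using key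
  have hm : ∀ n : ℕ, ∃ m, Ap un a n (fun i => x i m) ∧
      (∀ i ≤ n, ‖a i‖ ≤ ‖x i m‖ + 1 / (n + 1)) ∧ ∀ k ≤ n, ∀ y : ℕ → O,
        (∀ i, ‖y i‖ ≤ ‖a i‖ + 1) → Ap un a (K k) y → Dom k (fun i => x i m) y := fun n => by
    refine ((xa n).and (Eventually.and ?_ ?_)).exists
    · refine (Set.finite_le_nat n).eventually_all.2 fun i _ => ?_
      have := hq.nt (x i)
      rw [hx, NonUnitalStarAlgHom.norm_map φ hφ] at this
      exact (this.eventually (le_mem_nhds (sub_lt_self _ (by positivity :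
        (0 : ℝ) < 1 / (n + 1))))).mono fun m hm => sub_le_iff_le_add.1 hm
    · exact (Set.finite_le_nat n).eventually_all.2 fun k _ => hK k
  choose m m1 m2 m3 using hm
  have hV : ∀ k, ∀ᶠ n in V, k ≤ n := fun k =>
    hr.free (Nat.cofinite_eq_atTop ▸ eventually_ge_atTop k)
  let z : ℕ → ℕ →ᵇ O := fun i =>
    ofNormedAddCommGroupDiscrete (fun n => x i (m n)) _ fun n => xb i (m n)
  obtain ⟨χ, c1, c2⟩ := hr.glue (un := un) ha z fun k => (hV k).mono fun n hn => (m1 n).mono hn
  have cχ : ∀ f : A →⋆ₙₐ[ℂ] N, Continuous f := fun f =>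
    AddMonoidHomClass.continuous_of_bound f 1 fun b => by
      simpa only [one_mul] using NonUnitalStarAlgHom.norm_apply_le f b
  have c3 : Function.Injective χ := by
    have : ∀ b, ‖b‖ ≤ ‖χ b‖ := fun b => by
      refine ha.induction_on b (isClosed_le (by fun_prop) (cχ χ).norm) fun i => ?_
      rw [c1]
      refine le_of_inv i fun k hk => ge_of_tendsto ((hr.nt (z i)).add_const _) ?_
      filter_upwards [hV k] with n hn
      exact (m2 n i (hk.trans hn)).trans (add_le_add_right (inv_mono hn) _)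
    exact (injective_iff_map_eq_zero χ).2 fun b hb => norm_le_zero_iff.1
      (by simpa only [hb, norm_zero] using this b)
  have c4 : ∀ ψ : A →⋆ₙₐ[ℂ] N, (un → ψ e = 1) →
      ∃ w : N, ‖w‖ ≤ 1 ∧ ∀ b, star w * χ b * w = ψ b := fun ψ hψ => by
    obtain ⟨y, hy, yb, ya⟩ := hr.lift (un := un) (a := a) ψ hψ
    obtain ⟨w, h1, h2⟩ := hr.dom_glue z y fun k => by
      filter_upwards [hV k, ya (K k)] with n f1 f2
      exact m3 n k f1 _ (fun i => yb i n) f2
    refine ⟨w, h1, fun b => ha.induction_on b (isClosed_eq ?_ (cχ ψ)) fun i => ?_⟩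
    · exact (continuous_const.mul (cχ χ)).mul continuous_const
    · rw [c1, h2, hy]
  by_cases hun : un
  · refine ⟨χ, c3, c2, fun ψ hψ => ?_⟩
    obtain ⟨w, -, h⟩ := c4 ψ hψ
    exact ⟨w, by simpa only [show χ e = 1 from c2 hun, hψ hun, mul_one] using h e, h⟩
  · have hN := hO.map r
    refine ⟨ds hN χ 0, ds_inj hN c3 0, fun h => absurd h hun, fun ψ hψ => ?_⟩
    obtain ⟨w, h1, h2⟩ := c4 ψ hψ
    let _ := CStarAlgebra.spectralOrder N
    have _ := CStarAlgebra.spectralOrderedRing N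
    have h3 : 0 ≤ 1 - star w * w := by
      rw [sub_nonneg, ← CStarAlgebra.norm_le_one_iff_of_nonneg _ (star_mul_self_nonneg w),
        CStarRing.norm_star_mul_self]
      exact mul_le_one₀ h1 (norm_nonneg _) h1
    have h4 := (IsSelfAdjoint.of_nonneg (CFC.sqrt_nonneg (1 - star w * w))).star_eq
    have h5 := CFC.sqrt_mul_sqrt_self _ h3
    generalize CFC.sqrt (1 - star w * w) = d at h4 h5
    generalize r (const ℕ s) = σ at hN ⊢
    generalize r (const ℕ t) = τ at hN ⊢
    have h6 : star σ * (σ * w + τ * d) = w := by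
      rw [mul_add, ← mul_assoc, ← mul_assoc, hN.ss, hN.st, one_mul, zero_mul, add_zero]
    have h7 : star τ * (σ * w + τ * d) = d := by
      rw [mul_add, ← mul_assoc, ← mul_assoc, hN.tt, hN.ts, one_mul, zero_mul, zero_add]
    refine ⟨σ * w + τ * d, ?_, fun b => ?_⟩
    · rw [star_add, star_mul, star_mul, add_mul, mul_assoc, mul_assoc, h6, h7, h4, h5,
        add_sub_cancel]
    · have h8 := congrArg star h6
      rw [star_mul, star_star] at h8
      rw [ds_apply, NonUnitalStarAlgHom.zero_apply, mul_zero, zero_mul, add_zero, mul_assoc,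
        mul_assoc, mul_assoc, h6, ← mul_assoc, h8, ← mul_assoc, h2]

end Pool.Agent.MP_e9d43c_an.H41
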