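import Pool.Agent.MP_e9d43c_an.H41.Filt
import Pool.Agent.MP_e9d43c_an.H41.Avg
import Pool.Agent.MP_e9d43c_an.H41.Free
import Pool.Agent.MP_e9d43c_an.H41.Transfer

/-!
One stage of the construction: an approximate representation of the cone over the algebra of
the free unitaries that is not a compression of a given tuple.
-/

namespace Pool.Agent.MP_e9d43c_an.H41

open Finset Matrix Filter Module Pool.Agent.MP_e9d43c_an.H44

theorem map_ev {R S F : Type} [Ring R] [Algebra ℂ R] [Ring S] [Algebra ℂ S] [FunLike F R S]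
    [LinearMapClass F ℂ R S] (f : F) {V : F5 →* R} {V' : F5 →* S} (h : ∀ g, f (V g) = V' g)
    (P : GA) : f (ev V P) = ev V' P := by
  simp only [MonoidAlgebra.lift_apply, Finsupp.sum, map_sum, map_smul, h]

/-- A representation twisted by the regular representation of a finite quotient. -/
def twist {X G : Type} [Fintype X] [DecidableEq X] [Group G] [Fintype G] [DecidableEq G]
    (y : F5 →* Matrix X X ℂ) (ρ : F5 →* G) : F5 →* Matrix (X × G) (X × G) ℂ where
  toFun g := of fun p q => if p.2 = ρ g * q.2 then y g p.1 q.1 else 0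
  map_one' := by
    ext ⟨a, b⟩ ⟨c, d⟩
    by_cases h : b = d <;> simp [one_apply, h]
  map_mul' g g' := by
    ext ⟨a, b⟩ ⟨c, d⟩
    simp only [of_apply, mul_apply, Fintype.sum_prod_type, map_mul, mul_ite, mul_zero,
      sum_ite_eq', mem_univ, if_true, mul_assoc, ite_mul, zero_mul]
    split_ifs <;> simp

theorem twist_apply {X G : Type} [Fintype X] [DecidableEq X] [Group G] [Fintype G]
    [DecidableEq G] (y : F5 →* Matrix X X ℂ) (ρ : F5 →* G) (g : F5) (p q : X × G) :
    twist y ρ g p q = if p.2 = ρ g * q.2 then y g p.1 q.1 else 0 := rfl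

variable {O : Type} [CStarAlgebra O]

/-- Operators on a finite-dimensional space, and scalars on the complement, inside `O`. -/
noncomputable def blk {I : Type} [Fintype I] [DecidableEq I] {τ : I → O}
    (hτ : ∀ a b, star (τ a) * τ b = if a = b then 1 else 0) :
    ((EuclideanSpace ℂ I →L[ℂ] EuclideanSpace ℂ I) × ℂ) →⋆ₙₐ[ℂ] O where
  toFun z := emb τ ((toEuclideanCLM (n := I) (𝕜 := ℂ)).symm z.1) + z.2 • (1 - emb τ 1)
  map_smul' c z := by simp [emb, smul_sum, smul_smul]
  map_zero' := by simp [emb]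
  map_add' z z' := by
    simp only [emb, Prod.fst_add, Prod.snd_add, map_add, Matrix.add_apply, add_smul,
      sum_add_distrib]
    abel
  map_mul' z z' := by
    simp only [Prod.fst_mul, Prod.snd_mul, map_mul, add_mul, mul_add, smul_mul_assoc,
      mul_smul_comm, mul_sub, sub_mul, emb_mul hτ, one_mul, mul_one, sub_self, smul_zero, add_zero,
      add_sub_cancel_left, smul_smul, mul_comm z'.2]
  map_star' z := by
    simp only [Prod.fst_star, Prod.snd_star, map_star, star_add, star_smul, star_sub, star_one,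
      star_emb, conjTranspose_one, star_eq_conjTranspose]

theorem blk_col [Nontrivial O] {I : Type} [Fintype I] [DecidableEq I] {τ : I → O}
    (hτ : ∀ a b, star (τ a) * τ b = if a = b then 1 else 0)
    (T : EuclideanSpace ℂ I →L[ℂ] EuclideanSpace ℂ I) (b : I) :
    ‖blk hτ (T, 0) * τ b‖ = ‖T (EuclideanSpace.basisFun I ℂ b)‖ := by
  obtain ⟨m, rfl⟩ : ∃ m, toEuclideanCLM (n := I) (𝕜 := ℂ) m = T :=
    (toEuclideanCLM (n := I) (𝕜 := ℂ)).surjective T
  have e : blk hτ (toEuclideanCLM (n := I) (𝕜 := ℂ) m, 0) * τ b = ∑ a, m a b • τ a := by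
    rw [← emb_mul_t hτ]
    simp [blk]
  rw [← sq_eq_sq₀ (norm_nonneg _) (norm_nonneg _), e, EuclideanSpace.norm_sq_eq]
  refine norm_sq_of_gram (sum_nonneg fun _ _ => sq_nonneg _) ?_
  simp only [star_sum, star_smul, sum_mul, mul_sum, smul_mul_assoc, mul_smul_comm, hτ, smul_ite,
    smul_zero, sum_ite_eq', mem_univ, if_true, smul_smul, ← sum_smul, ofLp_toEuclideanCLM]
  congr 1
  push_cast
  refine sum_congr rfl fun a _ => ?_
  simp [Complex.mul_conj']

set_option maxHeartbeats 400000 in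
theorem stage [Nontrivial O] {s : ℕ → O} (hs : Iso s) (hd : Dense (Poly s : Set O))
    {v : F5 →* O} (hv : URep v) (hv' : ∀ P : GA, ‖P.coeff 1‖ ≤ ‖ev v P‖) (A : Finset GA) {ε : ℝ}
    (hε : 0 < ε) (x : Fin 5 → O) (hx : ∀ i, ‖x i‖ ≤ 1 + 1 / 10 ^ 13) :
    ∃ (h : O) (V : F5 →* O), URep V ∧ IsSelfAdjoint h ∧ ‖(2 : ℂ) • h - 1‖ ≤ 1 ∧
      (∀ i, ‖h * V (.of i) - V (.of i) * h‖ ≤ ε) ∧
      (∀ P ∈ A, ∃ C, ‖C‖ ≤ ‖ev v P‖ + ε ∧ ev V P * h = C * h) ∧
      ∀ w : O, ‖w‖ ≤ 1 + 1 / 10 ^ 13 →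
        ¬∀ i, ‖star w * x i * w - V (.of i) * h‖ ≤ 1 / 10 ^ 13 := by
  classical
  obtain ⟨N, hN⟩ := exists_nat_gt (2 / ε)
  have hN0 : (0 : ℝ) < N := lt_trans (by positivity) hN
  have hm : ∀ᶠ m : ℕ in atTop, ∀ P ∈ A, (‖ev v P‖ ^ 2 / (‖ev v P‖ + ε) ^ 2) ^ m ≤
      (1 / 10 ^ 13) ^ 2 / (11 ^ N * (A.card + 1)) := (eventually_all_finset A).2 fun P _ =>
    (tendsto_pow_atTop_nhds_zero_of_lt_one (by positivity) ((div_lt_one (by positivity)).2
      (by gcongr; linarith))).eventually (ge_mem_nhds (by positivity))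
  obtain ⟨m, hm⟩ := hm.exists
  obtain ⟨G, _, _, ρ, hρ⟩ := exists_fin (A.biUnion fun P => ((adj P * P) ^ m).coeff.support)
  let t : G → O := fun b => tt s (Fintype.equivFin G b)
  have ht : ∀ a b, star (t a) * t b = if a = b then 1 else 0 := fun a b => by
    rw [tt_orth hs]
    exact if_congr (by rw [Fin.val_inj, EmbeddingLike.apply_eq_iff_eq]) rfl rfl
  have n1 : ∀ {z : O}, star z * z = 1 → ‖z‖ ≤ 1 := fun h => norm_le_one (pi_of_iso h)
  have tn : ∀ b, ‖t b‖ ≤ 1 := fun b => n1 (by rw [ht, if_pos rfl])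
  obtain ⟨D, hD⟩ := main_dense_avg hs hd (fun i => ∑ b, t (ρ (.of i) * b) * x i * star (t b))
    fun i => orth_sum _ _ (by positivity) (fun a b hab => by
      rw [star_mul, star_mul, mul_assoc, mul_assoc, mul_assoc, ← mul_assoc (star (t _)), ht,
        if_neg (by simpa using hab), zero_mul, mul_zero, mul_zero]) (fun a b hab => by
      rw [star_mul, star_star, mul_assoc, ← mul_assoc (star (t _)), ht, if_neg hab, zero_mul,
        mul_zero]) fun b => norm_mul₃_le.trans (by
      rw [norm_star]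
      calc _ ≤ 1 * (1 + 1 / 10 ^ 13) * (1 : ℝ) := by gcongr <;> simp only [tn, hx]
        _ = _ := by ring)
  let y : F5 →* Matrix (Gd (D + 1)) (Gd (D + 1)) ℂ := mkRep fun i =>
    ⟨yMat (D + 1) i, mul_eq_one_comm.1 (yMat_unitary i), yMat_unitary i⟩
  let U : F5 →* (EuclideanSpace ℂ (Gd (D + 1) × G) →L[ℂ] EuclideanSpace ℂ (Gd (D + 1) × G)) :=
    (toEuclideanCLM (n := Gd (D + 1) × G) (𝕜 := ℂ)).toMulEquiv.toMonoidHom.comp (twist y ρ)
  have eU : ∀ g, U g = toEuclideanCLM (n := Gd (D + 1) × G) (𝕜 := ℂ) (twist y ρ g) := fun _ => rfl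
  have hU : URep U := fun g => by
    rw [eU, eU, ← map_star]
    congr 1
    ext p q
    rw [star_apply, twist_apply, twist_apply, ← uRep_mkRep _ g, star_apply, apply_ite star,
      star_zero, map_inv]
    exact if_congr (eq_inv_mul_iff_mul_eq.trans eq_comm).symm rfl rfl
  obtain ⟨c, hc⟩ : ∃ c : ℝ, c = Fintype.card (Gd (D + 1) × G) := ⟨_, rfl⟩
  have c0 : 0 ≤ c := hc ▸ Nat.cast_nonneg _
  have htr : ∀ P ∈ A, ‖LinearMap.trace ℂ _ ((star (ev U P) * ev U P) ^ m :
      EuclideanSpace ℂ (Gd (D + 1) × G) →L[ℂ] _).toLinearMap‖ ≤ (‖ev v P‖ ^ 2) ^ m * c :=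
    fun P hP => by
    have e : trace (ev (twist y ρ) ((adj P * P) ^ m)) = ((adj P * P) ^ m).coeff 1 * c := by
      rw [MonoidAlgebra.lift_apply, Finsupp.sum, trace_sum, sum_eq_single 1]
      · rw [map_one (twist y ρ), trace_smul, trace_one, hc]
        simp
      · intro g hg h1
        have := hρ g (mem_biUnion.2 ⟨P, hP, hg⟩) h1
        simp [trace, twist_apply, this]
      · intro h
        simp [Finsupp.notMem_support_iff.1 h]
    rw [← ev_adj hU, ← map_mul, ← map_pow, ← map_ev _ fun g => (eU g).symm,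
      coe_toEuclideanCLM_eq_toEuclideanLin, toEuclideanLin, toLpLin_eq_toLin, trace_toLin_eq, e, norm_mul,
      Complex.norm_real, Real.norm_of_nonneg (by positivity)]
    gcongr
    refine (hv' _).trans ?_
    rw [map_pow, map_mul, ev_adj hv, sq, ← CStarRing.norm_star_mul_self]
    exact norm_pow_le _ _
  have hK : ∀ P : GA, ∃ K : Submodule ℂ (EuclideanSpace ℂ (Gd (D + 1) × G)), P ∈ A →
      11 ^ N * (finrank ℂ K : ℝ) ≤ (1 / 10 ^ 13) ^ 2 * c / (A.card + 1) ∧
        ∀ ξ ∈ Kᗮ, ‖ev U P ξ‖ ≤ (‖ev v P‖ + ε) * ‖ξ‖ := fun P => by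
    by_cases hP : P ∈ A
    · obtain ⟨K, h1, h2⟩ := exists_bad (ev U P) (β := ‖ev v P‖ + ε) (by positivity) m (htr P hP)
      refine ⟨K, fun _ => ⟨?_, h2⟩⟩
      have h3 := hm P hP
      rw [div_pow] at h3
      rw [← le_div_iff₀ (by positivity), mul_comm, mul_div_assoc] at h1
      refine (mul_le_mul_of_nonneg_left (h1.trans (mul_le_mul_of_nonneg_left h3 (by positivity)))
        (by positivity)).trans_eq ?_
      field_simp
    · exact ⟨⊥, fun h => absurd h hP⟩
  choose K hK using hK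
  obtain ⟨h, h1, h2, h3, h4, h5⟩ := exists_cut (A.sup K) (Nat.cast_pos.1 hN0)
    (fun i => U (.of i)) fun i => (hU.norm_le _).trans_eq (add_zero 1)
  let e := EuclideanSpace.basisFun (Gd (D + 1) × G) ℂ
  have h6 : ∑ a, ‖(1 - h) (e a)‖ ≤ 1 / 10 ^ 13 * c := by
    have a1 : (finrank ℂ ↥(A.sup K) : ℝ) ≤ ∑ P ∈ A, (finrank ℂ (K P) : ℝ) := by
      exact_mod_cast finrank_sup_le A K
    have a2 := (h5 e).trans (mul_le_mul_of_nonneg_left a1 (by positivity))
    rw [mul_sum] at a2
    have a3 := a2.trans (sum_le_sum fun P hP => (hK P hP).1)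
    have a4 : (A.card : ℝ) * ((1 / 10 ^ 13) ^ 2 * c / (A.card + 1)) ≤ (1 / 10 ^ 13) ^ 2 * c := by
      rw [← mul_div_assoc, div_le_iff₀ (by positivity), mul_comm]
      gcongr
      linarith
    rw [sum_const, nsmul_eq_mul] at a3
    have a5 : ∑ a, ‖(1 - h) (e a)‖ ≤
        ∑ a, (1 / 10 ^ 13 / 2 + 10 ^ 13 / 2 * ‖(1 - h) (e a)‖ ^ 2) :=
      sum_le_sum fun a _ => by nlinarith [sq_nonneg (10 ^ 13 * ‖(1 - h) (e a)‖ - 1)]
    rw [sum_add_distrib, sum_const, card_univ, nsmul_eq_mul, ← mul_sum, ← hc] at a5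
    linarith
  let τ : Gd (D + 1) × G → O := fun p => t p.2 * tG s (D + 1) p.1
  have hτ : ∀ a b, star (τ a) * τ b = if a = b then 1 else 0 := fun a b => by
    rw [star_mul, mul_assoc, ← mul_assoc (star (t _)), ht]
    by_cases h : a.2 = b.2
    · rw [if_pos h, one_mul, tG_orth hs]
      exact if_congr (by simp [Prod.ext_iff, h]) rfl rfl
    · rw [if_neg h, zero_mul, mul_zero, if_neg fun e => h (by rw [e])]
  let J := toUnital (blk hτ) (by simp [blk])
  have Jn : ∀ z, ‖J z‖ ≤ ‖z‖ := NonUnitalStarAlgHom.norm_apply_le J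
  let V : F5 →* O := J.toAlgHom.toMonoidHom.comp (U.prod (1 : F5 →* ℂ))
  have eV : ∀ g, V g = J (U g, 1) := fun _ => rfl
  refine ⟨J (h, 0), V, fun g => ?_, ?_, ?_, fun i => ?_, fun P hP => ?_, fun w hw he => ?_⟩
  · rw [eV, eV, ← map_star, ← hU g, Prod.star_def, star_one]
  · rw [IsSelfAdjoint, ← map_star, Prod.star_def, h1.star_eq, star_zero]
  · rw [← map_one J, ← map_smul, ← map_sub]
    exact (Jn _).trans (max_le h2 (by simp))
  · rw [eV, ← map_mul, ← map_mul, ← map_sub]
    refine (Jn _).trans (max_le ((h3 i).trans ?_) (by simpa using hε.le))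
    rw [div_lt_iff₀ hε] at hN
    rw [div_le_iff₀ hN0]
    linarith
  · refine ⟨J (ev U P * (1 - (A.sup K).starProjection), 0), (Jn _).trans (max_le ?_ ?_), ?_⟩
    · refine ContinuousLinearMap.opNorm_le_bound _ (by positivity) fun ξ => ?_
      rw [← Submodule.starProjection_orthogonal']
      refine ((hK P hP).2 _ (Submodule.orthogonal_le (le_sup hP)
        (Submodule.starProjection_apply_mem _ ξ))).trans ?_
      gcongr
      exact Submodule.norm_starProjection_apply_le _ _
    · rw [norm_zero]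
      positivity
    · have b1 := map_ev J (V := U.prod (1 : F5 →* ℂ)) (V' := V) (fun g => (eV g).symm) P
      have b2 := map_ev (AlgHom.fst ℂ _ ℂ) (V := U.prod (1 : F5 →* ℂ)) (V' := U) (fun _ => rfl) P
      rw [← b1, ← map_mul J, ← map_mul J]
      refine congrArg J (Prod.ext ?_ (by simp))
      rw [Prod.fst_mul, Prod.fst_mul, mul_assoc, h4, ← b2]
      rfl
  · obtain ⟨γ, hγ⟩ : ∃ γ : ℝ, γ = Fintype.card G := ⟨_, rfl⟩
    have γ0 : 0 < γ := hγ ▸ Nat.cast_pos.2 Fintype.card_pos
    have hS : ∀ b, star (t b) * ∑ a, t a * w * t a = w * t b := fun b => by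
      simp [mul_sum, ← mul_assoc, ht]
    have hS' : ∀ b, star (∑ a, t a * w * t a) * t b = star (w * t b) := fun b => by
      rw [← hS, star_mul, star_star]
    generalize hz : ∑ a, t a * w * t a = z at hS hS'
    have r2 : ((√γ⁻¹ : ℝ) : ℂ) * (√γ⁻¹ : ℝ) = (γ⁻¹ : ℝ) := by
      rw [← Complex.ofReal_mul, Real.mul_self_sqrt (by positivity)]
    have nγ : ‖((γ⁻¹ : ℝ) : ℂ)‖ = γ⁻¹ := by
      rw [Complex.norm_real, Real.norm_of_nonneg (by positivity)]
    have sc : ∀ a : O, star (((√γ⁻¹ : ℝ) : ℂ) • z) * a * (((√γ⁻¹ : ℝ) : ℂ) • z) =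
        ((γ⁻¹ : ℝ) : ℂ) • (star z * a * z) := fun a => by
      rw [star_smul, smul_mul_assoc, smul_mul_assoc, mul_smul_comm, smul_smul, Complex.star_def,
        Complex.conj_ofReal, r2]
    refine hD (((√γ⁻¹ : ℝ) : ℂ) • z) ?_ fun i => ?_
    · refine (abs_le_of_sq_le_sq' ?_ (by positivity)).2
      have a1 : star z * 1 * z = ∑ a, star (w * t a) * (w * t a) := by
        conv_lhs => rw [mul_one, show star z * z = star z * ∑ a, t a * w * t a by rw [hz]]
        rw [mul_sum]
        exact sum_congr rfl fun a _ => by rw [← hS', mul_assoc, mul_assoc]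
      rw [sq, ← CStarRing.norm_star_mul_self, ← mul_one (star _), sc, norm_smul, nγ, a1,
        inv_mul_le_iff₀ γ0]
      refine (norm_sum_le_of_le _ fun a _ => ?_).trans_eq (by
        rw [sum_const, card_univ, nsmul_eq_mul, hγ])
      rw [CStarRing.norm_star_mul_self, ← sq]
      gcongr
      exact (norm_mul_le _ _).trans ((mul_le_of_le_one_right (norm_nonneg _) (tn a)).trans hw)
    · have a1 : ∀ j b, star (t (ρ (.of i) * b)) * (J (U (.of i), 0) * τ (j, b)) =
          YY s D i * tG s (D + 1) j := fun j b => by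
        have : J (U (.of i), 0) = emb τ (twist y ρ (.of i)) := by simp [J, toUnital, blk, eU]
        rw [this, emb_mul_t hτ, YY, emb_mul_t (tG_orth hs _), mul_sum, Fintype.sum_prod_type]
        refine sum_congr rfl fun a _ => ?_
        simp [twist_apply, τ, ← mul_assoc, ht, y, mkRep_of]
      have a2 : ∀ j, (star (((√γ⁻¹ : ℝ) : ℂ) • z) * (∑ b, t (ρ (.of i) * b) * x i * star (t b)) *
          (((√γ⁻¹ : ℝ) : ℂ) • z) - YY s D i) * tG s (D + 1) j = ((γ⁻¹ : ℝ) : ℂ) •
          ∑ b, star (t (ρ (.of i) * b)) * ((star w * x i * w - V (.of i) * J (h, 0)) * τ (j, b) -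
            J (U (.of i) * (1 - h), 0) * τ (j, b)) := fun j => by
        have b1 : V (.of i) * J (h, 0) + J (U (.of i) * (1 - h), 0) = J (U (.of i), 0) := by
          rw [eV, ← map_mul, ← map_add]
          simp [mul_sub]
        simp only [← sub_mul, sub_sub, b1]
        simp only [sub_mul, mul_sub, a1, sum_sub_distrib, smul_sub, sc, sum_const, card_univ]
        congr 1
        · rw [smul_mul_assoc, mul_sum, sum_mul, sum_mul]
          congr 1
          refine sum_congr rfl fun b _ => ?_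
          calc _ = star z * t (ρ (.of i) * b) * x i * (star (t b) * z) * tG s (D + 1) j := by
                simp only [mul_assoc]
            _ = _ := by simp only [hS, hS', τ, star_mul, mul_assoc]
        · rw [← Nat.cast_smul_eq_nsmul ℂ, smul_smul, ← Complex.ofReal_natCast, ← hγ,
            ← Complex.ofReal_mul, inv_mul_cancel₀ γ0.ne', Complex.ofReal_one, one_smul]
      have a3 : ∀ j b, ‖star (t (ρ (.of i) * b)) *
          ((star w * x i * w - V (.of i) * J (h, 0)) * τ (j, b) -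
            J (U (.of i) * (1 - h), 0) * τ (j, b))‖ ≤ 1 / 10 ^ 13 + ‖(1 - h) (e (j, b))‖ :=
        fun j b => by
        refine (norm_mul_le _ _).trans ((mul_le_of_le_one_left (norm_nonneg _)
          ((norm_star _).trans_le (tn _))).trans ((norm_sub_le _ _).trans (add_le_add ?_ ?_)))
        · exact (norm_mul_le _ _).trans ((mul_le_of_le_one_right (norm_nonneg _)
            (n1 (by rw [hτ, if_pos rfl]))).trans (he i))
        · refine (blk_col hτ _ _).trans_le (((U (.of i)).le_opNorm _).trans ?_)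
          exact mul_le_of_le_one_left (norm_nonneg _) ((hU.norm_le _).trans_eq (add_zero 1))
      simp only [a2, norm_smul, nγ, ← mul_sum]
      rw [inv_mul_le_iff₀ γ0]
      refine (sum_le_sum fun j _ => norm_sum_le_of_le _ fun b _ => a3 j b).trans ?_
      rw [← Fintype.sum_prod_type', sum_add_distrib, sum_const, card_univ, nsmul_eq_mul, ← hc]
      have a4 : c = γ * Fintype.card (Gd (D + 1)) := by
        rw [hc, hγ, Fintype.card_prod, Nat.cast_mul, mul_comm]
      rw [← mul_assoc, ← a4]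
      linarith

end Pool.Agent.MP_e9d43c_an.H41
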